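import Pool.Agent.Lib.MP_715eb0_an.NC.Spec

/-!
# MP_715eb0_an NC: module CNT
-/

set_option autoImplicit false

open Pool.Agent.Lib.MP_d0e829_nt

namespace Pool.Agent.Lib.MP_715eb0_an.NC

namespace CNTM

open Finset

lemma V_pos (p : ℕ × ℕ) : 0 < V p := by unfold V; positivity

lemma gcd_V (x y : ℕ × ℕ) : Nat.gcd (V x) (V y) = 2 ^ min x.1 y.1 * 3 ^ min x.2 y.2 := by
  have h23 : ∀ a b : ℕ, Nat.Coprime (2 ^ a) (3 ^ b) := fun a b =>
    Nat.Coprime.pow _ _ (by norm_num)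
  have hpow : ∀ c a b : ℕ, Nat.gcd (c ^ a) (c ^ b) = c ^ min a b := by
    intro c a b
    rcases le_total a b with h | h
    · rw [min_eq_left h]
      exact Nat.gcd_eq_left (pow_dvd_pow c h)
    · rw [min_eq_right h]
      exact Nat.gcd_eq_right (pow_dvd_pow c h)
  unfold V
  rw [Nat.Coprime.gcd_mul _ (h23 y.1 y.2)]
  congr 1
  · rw [Nat.Coprime.gcd_mul_right_cancel _ (h23 y.1 x.2).symm]
    exact hpow 2 _ _
  · rw [Nat.Coprime.gcd_mul_left_cancel _ (h23 x.1 y.2)]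
    exact hpow 3 _ _

/-- the height of a pair -/
noncomputable def hh (x y : ℕ × ℕ) : ℝ :=
  Real.log ((max (V x) (V y) : ℕ) : ℝ) - Real.log ((Nat.gcd (V x) (V y) : ℕ) : ℝ)

lemma hh_comm (x y : ℕ × ℕ) : hh x y = hh y x := by
  unfold hh
  rw [max_comm, Nat.gcd_comm]

lemma hgt_pair {ι : Type} [DecidableEq ι] (i j : ι) (p : ι → ℕ × ℕ) :
    hgt {i, j} (fun j => V (p j)) = hh (p i) (p j) := by
  unfold hgt hh
  rw [Finset.sup_insert, Finset.sup_singleton, Finset.gcd_insert, Finset.gcd_singleton, normalize_eq]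
  rfl

/-- one coordinate -/
lemma hh_ge (x y : ℕ × ℕ) (h : y.1 ≤ x.1) : ((x.1 - y.1 : ℕ) : ℝ) * Real.log 2 ≤ hh x y := by
  have hg : 0 < Nat.gcd (V x) (V y) := Nat.gcd_pos_of_pos_left _ (V_pos x)
  have h1 : Nat.gcd (V x) (V y) * 2 ^ (x.1 - y.1) ≤ max (V x) (V y) := by
    rw [gcd_V]
    refine le_trans ?_ (le_max_left _ _)
    unfold V
    rw [min_eq_right h]
    calc 2 ^ y.1 * 3 ^ min x.2 y.2 * 2 ^ (x.1 - y.1) = (2 ^ y.1 * 2 ^ (x.1 - y.1)) * 3 ^ min x.2 y.2 := by ring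
      _ = 2 ^ x.1 * 3 ^ min x.2 y.2 := by rw [← pow_add, Nat.add_sub_cancel' h]
      _ ≤ 2 ^ x.1 * 3 ^ x.2 := Nat.mul_le_mul_left _ (Nat.pow_le_pow_right (by norm_num) (min_le_left _ _))
  have h2 : (Nat.gcd (V x) (V y) : ℝ) * 2 ^ (x.1 - y.1) ≤ ((max (V x) (V y) : ℕ) : ℝ) := by
    exact_mod_cast h1
  have hg' : (0 : ℝ) < (Nat.gcd (V x) (V y) : ℝ) := by exact_mod_cast hg
  have h3 := Real.log_le_log (by positivity) h2
  rw [Real.log_mul hg'.ne' (by positivity), Real.log_pow] at h3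
  unfold hh
  linarith

lemma hh_ge2 (x y : ℕ × ℕ) (h : y.2 ≤ x.2) : ((x.2 - y.2 : ℕ) : ℝ) * Real.log 2 ≤ hh x y := by
  have hg : 0 < Nat.gcd (V x) (V y) := Nat.gcd_pos_of_pos_left _ (V_pos x)
  have h1 : Nat.gcd (V x) (V y) * 3 ^ (x.2 - y.2) ≤ max (V x) (V y) := by
    rw [gcd_V]
    refine le_trans ?_ (le_max_left _ _)
    unfold V
    rw [min_eq_right h]
    calc 2 ^ min x.1 y.1 * 3 ^ y.2 * 3 ^ (x.2 - y.2) = 2 ^ min x.1 y.1 * (3 ^ y.2 * 3 ^ (x.2 - y.2)) := by ring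
      _ = 2 ^ min x.1 y.1 * 3 ^ x.2 := by rw [← pow_add, Nat.add_sub_cancel' h]
      _ ≤ 2 ^ x.1 * 3 ^ x.2 := Nat.mul_le_mul_right _ (Nat.pow_le_pow_right (by norm_num) (min_le_left _ _))
  have h2 : (Nat.gcd (V x) (V y) : ℝ) * 3 ^ (x.2 - y.2) ≤ ((max (V x) (V y) : ℕ) : ℝ) := by
    exact_mod_cast h1
  have hg' : (0 : ℝ) < (Nat.gcd (V x) (V y) : ℝ) := by exact_mod_cast hg
  have h3 := Real.log_le_log (by positivity) h2
  rw [Real.log_mul hg'.ne' (by positivity), Real.log_pow] at h3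
  have h4 : Real.log 2 ≤ Real.log 3 := Real.log_le_log (by norm_num) (by norm_num)
  have h5 : ((x.2 - y.2 : ℕ) : ℝ) * Real.log 2 ≤ ((x.2 - y.2 : ℕ) : ℝ) * Real.log 3 :=
    mul_le_mul_of_nonneg_left h4 (Nat.cast_nonneg _)
  unfold hh
  linarith

/-- the neighbours of a point -/
def box (L : ℕ) (y : ℕ × ℕ) : Finset (ℕ × ℕ) :=
  Ico (y.1 + 1 - 2 * L) (y.1 + 2 * L) ×ˢ Ico (y.2 + 1 - 2 * L) (y.2 + 2 * L)

lemma card_box (L : ℕ) (y : ℕ × ℕ) : (box L y).card ≤ 4 * L * (4 * L) := by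
  unfold box
  rw [card_product, Nat.card_Ico, Nat.card_Ico]
  exact Nat.mul_le_mul (by omega) (by omega)

lemma mem_box {q L : ℕ} (hq : Real.log q < L * Real.log 2) {x y : ℕ × ℕ} (hL : 1 ≤ L)
    (h : x = y ∨ hh x y < 2 * Real.log q) : x ∈ box L y := by
  have h2 : 0 < Real.log 2 := Real.log_pos (by norm_num)
  rcases h with h | h
  · rw [h]
    unfold box
    rw [mem_product, mem_Ico, mem_Ico]
    omega
  · have key : ∀ t : ℕ, (t : ℝ) * Real.log 2 ≤ hh x y → t < 2 * L := by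
      intro t ht
      have h3 : (t : ℝ) * Real.log 2 < (2 * L : ℝ) * Real.log 2 := by linarith
      have h4 := lt_of_mul_lt_mul_right h3 h2.le
      exact_mod_cast h4
    have a1 : x.1 < y.1 + 2 * L := by
      rcases le_total y.1 x.1 with h3 | h3
      · have := key _ (hh_ge x y h3)
        omega
      · omega
    have a2 : y.1 < x.1 + 2 * L := by
      rcases le_total x.1 y.1 with h3 | h3
      · have := key _ (by rw [hh_comm]; exact hh_ge y x h3)
        omega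
      · omega
    have b1 : x.2 < y.2 + 2 * L := by
      rcases le_total y.2 x.2 with h3 | h3
      · have := key _ (hh_ge2 x y h3)
        omega
      · omega
    have b2 : y.2 < x.2 + 2 * L := by
      rcases le_total x.2 y.2 with h3 | h3
      · have := key _ (by rw [hh_comm]; exact hh_ge2 y x h3)
        omega
      · omega
    unfold box
    rw [mem_product, mem_Ico, mem_Ico]
    omega

/-- separated sets -/
def Sepp (c : ℝ) (Q : Finset (ℕ × ℕ)) : Prop := ∀ x ∈ Q, ∀ y ∈ Q, x ≠ y → c ≤ hh x y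

/-- a maximal separated subset -/
lemma exists_sep (P : Finset (ℕ × ℕ)) (c : ℝ) : ∃ P' ⊆ P,
    (∀ x ∈ P', ∀ y ∈ P', x ≠ y → c ≤ hh x y) ∧ ∀ x ∈ P, ∃ y ∈ P', x = y ∨ hh x y < c := by
  classical
  set F := P.powerset.filter (Sepp c) with hF
  have hne : F.Nonempty := ⟨∅, by
    rw [hF, mem_filter, mem_powerset]
    exact ⟨empty_subset _, fun x hx => absurd hx (notMem_empty x)⟩⟩
  obtain ⟨P', hP', hmax⟩ := Finset.exists_max_image F Finset.card hne
  rw [hF, mem_filter, mem_powerset] at hP'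
  refine ⟨P', hP'.1, hP'.2, fun x hx => ?_⟩
  by_contra hcon
  push Not at hcon
  have hxP : x ∉ P' := fun h => (hcon x h).1 rfl
  have h1 : insert x P' ∈ F := by
    rw [hF, mem_filter, mem_powerset]
    refine ⟨insert_subset hx hP'.1, fun a ha b hb hab => ?_⟩
    rw [mem_insert] at ha hb
    rcases ha with rfl | ha <;> rcases hb with rfl | hb
    · exact absurd rfl hab
    · exact (hcon b hb).2
    · rw [hh_comm]
      exact (hcon a ha).2
    · exact hP'.2 a ha b hb hab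
  have h2 := hmax _ h1
  rw [card_insert_of_notMem hxP] at h2
  omega

lemma log_V_le {K L : ℕ} {x : ℕ × ℕ} (h1 : x.1 < K * L) (h2 : x.2 < K * L) :
    Real.log (V x) ≤ K * (2.6 * (L * Real.log 2)) := by
  have h3 : Real.log (V x) = x.1 * Real.log 2 + x.2 * Real.log 3 := by
    unfold V
    push_cast
    rw [Real.log_mul (by positivity) (by positivity), Real.log_pow, Real.log_pow]
  have h4 : Real.log 3 ≤ 1.6 * Real.log 2 := by
    have h5 : Real.log ((3 : ℝ) ^ 5) ≤ Real.log ((2 : ℝ) ^ 8) :=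
      Real.log_le_log (by norm_num) (by norm_num)
    rw [Real.log_pow, Real.log_pow] at h5
    push_cast at h5
    linarith
  have h5 : 0 < Real.log 2 := Real.log_pos (by norm_num)
  have h6 : (x.1 : ℝ) ≤ K * L := by exact_mod_cast h1.le
  have h7 : (x.2 : ℝ) ≤ K * L := by exact_mod_cast h2.le
  have h8 : (0 : ℝ) ≤ x.2 := Nat.cast_nonneg _
  rw [h3]
  have h9 : (x.1 : ℝ) * Real.log 2 ≤ K * L * Real.log 2 := mul_le_mul_of_nonneg_right h6 h5.le
  have h10 : (x.2 : ℝ) * Real.log 3 ≤ x.2 * (1.6 * Real.log 2) := mul_le_mul_of_nonneg_left h4 h8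
  have h11 : (x.2 : ℝ) * (1.6 * Real.log 2) ≤ K * L * (1.6 * Real.log 2) :=
    mul_le_mul_of_nonneg_right h7 (by positivity)
  nlinarith

end CNTM

open CNTM Finset in
/-- CNT -/
theorem specCNT (hEXT : SpecEXT) : SpecCNT := by
  classical
  intro ε η hε hη
  obtain ⟨κ, hκ⟩ := hEXT
  set η₁ : ℝ := min η 1 with hη₁
  have hη₁0 : 0 < η₁ := lt_min hη one_pos
  obtain ⟨K₀, hK₀⟩ := exists_nat_ge (16 * κ / (ε * η₁))
  set K : ℕ := K₀ + 1 with hK
  have hK1 : 1 ≤ K := by omega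
  have hKκ : 16 * κ / η₁ ≤ ε * K := by
    rw [div_le_iff₀ (by positivity)] at hK₀
    rw [div_le_iff₀ hη₁0]
    have h1 : (K₀ : ℝ) ≤ K := by rw [hK]; push_cast; linarith
    have h2 : (K₀ : ℝ) * (ε * η₁) ≤ K * (ε * η₁) := mul_le_mul_of_nonneg_right h1 (by positivity)
    nlinarith
  obtain ⟨q₁, hq₁⟩ := hκ K η₁ hK1 hη₁0 (min_le_right _ _)
  refine ⟨K, max q₁ 4, hK1, fun q hq hq6 a ha y => ?_⟩
  have hqq : q₁ ≤ q := (le_max_left _ _).trans hq
  have hq4 : 4 ≤ q := (le_max_right _ _).trans hq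
  set L : ℕ := Nat.log 2 q + 1 with hL
  have hLpos : 1 ≤ L := by omega
  have hl2 : 0 < Real.log 2 := Real.log_pos (by norm_num)
  have hqr : (4 : ℝ) ≤ q := by exact_mod_cast hq4
  have hq0 : (0 : ℝ) < q := by linarith
  have hlog1 : Real.log q < L * Real.log 2 := by
    have h1 : q < 2 ^ L := Nat.lt_pow_succ_log_self (by norm_num) q
    have h2 : (q : ℝ) < 2 ^ L := by exact_mod_cast h1
    have h3 := Real.log_lt_log hq0 h2
    rw [Real.log_pow] at h3
    exact h3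
  have hlog2 : L * Real.log 2 ≤ Real.log q + Real.log 2 := by
    have h1 : 2 ^ Nat.log 2 q ≤ q := Nat.pow_log_le_self 2 (by omega)
    have h2 : (2 : ℝ) ^ Nat.log 2 q ≤ q := by exact_mod_cast h1
    have h3 := Real.log_le_log (by positivity) h2
    rw [Real.log_pow] at h3
    rw [hL]
    push_cast
    linarith
  have hlog4 : 2 * Real.log 2 ≤ Real.log q := by
    have h1 : Real.log ((2 : ℝ) ^ 2) ≤ Real.log q := Real.log_le_log (by norm_num) (by linarith)
    rw [Real.log_pow] at h1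
    push_cast at h1
    exact h1
  set P : Finset (ℕ × ℕ) := (range (K * L) ×ˢ range (K * L)).filter
    (fun p => ∃ k : ℤ, |(V p : ℝ) * (a / q) - y - k| ≤ (q : ℝ) ^ (-η₁)) with hP
  have hsub : {p : ℕ × ℕ | p.1 < K * L ∧ p.2 < K * L ∧
      ∃ k : ℤ, |(V p : ℝ) * (a / q) - y - k| ≤ (q : ℝ) ^ (-η)} ⊆ (P : Set (ℕ × ℕ)) := by
    rintro p ⟨h1, h2, k, hk⟩
    rw [hP, coe_filter]
    refine ⟨mem_product.mpr ⟨mem_range.mpr h1, mem_range.mpr h2⟩, k, hk.trans ?_⟩
    exact Real.rpow_le_rpow_of_exponent_le (by linarith) (neg_le_neg (min_le_left _ _))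
  have hncard : ((Set.ncard {p : ℕ × ℕ | p.1 < K * L ∧ p.2 < K * L ∧
      ∃ k : ℤ, |(V p : ℝ) * (a / q) - y - k| ≤ (q : ℝ) ^ (-η)} : ℕ) : ℝ) ≤ (P.card : ℝ) := by
    have h1 := Set.ncard_le_ncard hsub P.finite_toSet
    rw [Set.ncard_coe_finset] at h1
    exact_mod_cast h1
  refine hncard.trans ?_
  obtain ⟨P', hP'P, hsep, hcov⟩ := exists_sep P (2 * Real.log q)
  -- the covering
  have hcard1 : P.card ≤ P'.card * (4 * L * (4 * L)) := by
    have h1 : P ⊆ P'.biUnion (box L) := by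
      intro x hx
      obtain ⟨z, hz, h⟩ := hcov x hx
      exact mem_biUnion.mpr ⟨z, hz, mem_box hlog1 hLpos h⟩
    exact (card_le_card h1).trans (card_biUnion_le_card_mul _ _ _ fun z _ => card_box L z)
  -- the number of separated points
  have hcard2 : (P'.card : ℝ) ≤ κ * K / η₁ := by
    have hk : ∀ x : P', ∃ k : ℤ, |(V x.1 : ℝ) * (a / q) - y - k| ≤ (q : ℝ) ^ (-η₁) := by
      intro x
      exact (mem_filter.mp (hP'P x.2)).2
    choose k hk using hk
    have hr : ∀ x : P', x.1.1 < K * L ∧ x.1.2 < K * L := by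
      intro x
      have h1 := mem_product.mp (mem_filter.mp (hP'P x.2)).1
      exact ⟨mem_range.mp h1.1, mem_range.mp h1.2⟩
    have hpow : (q : ℝ) * (q : ℝ) ^ (-η₁) = (q : ℝ) ^ (1 - η₁) := by
      rw [sub_eq_add_neg, Real.rpow_add hq0, Real.rpow_one]
    refine hq₁ q hqq hq6 a ha P'.card (fun j => (P'.equivFin.symm j).1)
      (fun j => (V (P'.equivFin.symm j).1 : ℤ) * a - q * k (P'.equivFin.symm j)) ?_ ?_ ?_ ?_
    · intro j
      refine (log_V_le (hr (P'.equivFin.symm j)).1 (hr (P'.equivFin.symm j)).2).trans ?_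
      have h1 : 2.6 * (L * Real.log 2) ≤ 5 * Real.log q := by linarith
      have h2 : (K : ℝ) * (2.6 * (L * Real.log 2)) ≤ K * (5 * Real.log q) :=
        mul_le_mul_of_nonneg_left h1 (Nat.cast_nonneg _)
      linarith
    · intro j
      exact ⟨k (P'.equivFin.symm j), by ring⟩
    · intro i j
      set x := P'.equivFin.symm i
      set z := P'.equivFin.symm j
      have e1 : ((((V x.1 : ℤ) * a - q * k x) - ((V z.1 : ℤ) * a - q * k z) : ℤ) : ℝ) =
          q * (((V x.1 : ℝ) * (a / q) - y - k x) - ((V z.1 : ℝ) * (a / q) - y - k z)) := by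
        push_cast
        field_simp
        ring
      rw [e1, abs_mul, abs_of_pos hq0]
      have e2 : |((V x.1 : ℝ) * (a / q) - y - k x) - ((V z.1 : ℝ) * (a / q) - y - k z)| ≤
          2 * (q : ℝ) ^ (-η₁) := by
        refine (abs_sub _ _).trans ?_
        linarith [hk x, hk z]
      calc (q : ℝ) * |((V x.1 : ℝ) * (a / q) - y - k x) - ((V z.1 : ℝ) * (a / q) - y - k z)|
          ≤ q * (2 * (q : ℝ) ^ (-η₁)) := mul_le_mul_of_nonneg_left e2 hq0.le
        _ = 2 * (q : ℝ) ^ (1 - η₁) := by rw [← hpow]; ring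
    · intro i j hij
      rw [hgt_pair i j (fun j => ((P'.equivFin.symm j).1 : ℕ × ℕ))]
      refine hsep _ (P'.equivFin.symm i).2 _ (P'.equivFin.symm j).2 fun h => hij ?_
      exact P'.equivFin.symm.injective (Subtype.ext h)
  have hLr : (0 : ℝ) < L := by exact_mod_cast hLpos
  have hKr : (0 : ℝ) < K := by exact_mod_cast hK1
  have h1 : (P.card : ℝ) ≤ P'.card * (4 * L * (4 * L)) := by exact_mod_cast hcard1
  have h2 : (P'.card : ℝ) * (4 * L * (4 * L)) ≤ κ * K / η₁ * (4 * L * (4 * L)) :=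
    mul_le_mul_of_nonneg_right hcard2 (by positivity)
  have h3 : κ * K / η₁ * (4 * L * (4 * L)) = (16 * κ / η₁) * (K * L ^ 2) := by ring
  have h4 : (16 * κ / η₁) * (K * L ^ 2) ≤ (ε * K) * (K * L ^ 2) :=
    mul_le_mul_of_nonneg_right hKκ (by positivity)
  have h5 : ((Nat.log 2 q : ℝ) + 1) = L := by rw [hL]; push_cast; ring
  rw [h5]
  nlinarith

end Pool.Agent.Lib.MP_715eb0_an.NC
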