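import Pool.Agent.Lib.MP_715eb0_an.NC.Spec

/-!
# MP_715eb0_an, no concentration: the extremal argument (module EXT)
-/

set_option autoImplicit false

namespace Pool.Agent.Lib.MP_715eb0_an.NC

namespace EXTM

theorem V_pos (p : ℕ × ℕ) : 0 < V p := by unfold V; positivity

theorem gcd_pos {ι : Type} {J : Finset ι} {v : ι → ℕ} (hv : ∀ j, 0 < v j) (hJ : J.Nonempty) :
    0 < J.gcd v := by
  obtain ⟨j, hj⟩ := hJ
  rcases Nat.eq_zero_or_pos (J.gcd v) with h0 | h0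
  · have h1 := (Finset.gcd_eq_zero_iff).1 h0 j hj
    have := hv j
    omega
  · exact h0

theorem sup_pos {ι : Type} {J : Finset ι} {v : ι → ℕ} (hv : ∀ j, 0 < v j) (hJ : J.Nonempty) :
    0 < J.sup v := by
  obtain ⟨j, hj⟩ := hJ
  exact lt_of_lt_of_le (hv j) (Finset.le_sup (f := v) hj)

theorem hgt_mono {ι : Type} {I J : Finset ι} {v : ι → ℕ} (hv : ∀ j, 0 < v j)
    (hI : I.Nonempty) (hIJ : I ⊆ J) : hgt I v ≤ hgt J v := by
  have hJ : J.Nonempty := hI.mono hIJ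
  unfold hgt
  have h1 : ((I.sup v : ℕ) : ℝ) ≤ ((J.sup v : ℕ) : ℝ) := by
    exact_mod_cast Finset.sup_mono hIJ
  have h2 : ((J.gcd v : ℕ) : ℝ) ≤ ((I.gcd v : ℕ) : ℝ) := by
    have : J.gcd v ≤ I.gcd v := Nat.le_of_dvd (gcd_pos hv hI) (Finset.gcd_mono hIJ)
    exact_mod_cast this
  have h3 : (0 : ℝ) < ((I.sup v : ℕ) : ℝ) := by exact_mod_cast sup_pos hv hI
  have h4 : (0 : ℝ) < ((J.gcd v : ℕ) : ℝ) := by exact_mod_cast gcd_pos hv hJ
  have := Real.log_le_log h3 h1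
  have := Real.log_le_log h4 h2
  linarith

theorem hgt_le {ι : Type} {J : Finset ι} {v : ι → ℕ} (hv : ∀ j, 0 < v j)
    (hJ : J.Nonempty) (T : ℝ) (hT : ∀ j, Real.log (v j) ≤ T) : hgt J v ≤ T := by
  unfold hgt
  obtain ⟨j, -, hj⟩ := Finset.exists_mem_eq_sup J hJ v
  rw [hj]
  have h1 : (1 : ℝ) ≤ ((J.gcd v : ℕ) : ℝ) := by exact_mod_cast gcd_pos hv hJ
  have := Real.log_nonneg h1
  linarith [hT j]

theorem hgt_pair {ι κ : Type} [DecidableEq ι] [DecidableEq κ] (v : κ → ℕ) (f : ι → κ) (i j : ι) :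
    hgt {i, j} (fun x => v (f x)) = hgt {f i, f j} v := by
  unfold hgt
  simp [Finset.sup_insert, Finset.gcd_insert]

theorem hgt_pair_eq {ι : Type} [DecidableEq ι] (v : ι → ℕ) (i j : ι) (h : v i = v j) :
    hgt {i, j} v = 0 := by
  unfold hgt
  simp [Finset.sup_insert, Finset.gcd_insert, h]

/-- The choice of `B`. -/
theorem choose_B (X : ℝ) (hX : 1 ≤ X) (m : ℕ) (hm : 1 ≤ m) :
    ∃ B : ℕ, 1 ≤ B ∧ X ≤ (B : ℝ) ^ m ∧ Real.log B ≤ Real.log 2 + Real.log X / m := by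
  have hX0 : 0 < X := by linarith
  set x : ℝ := X ^ ((1 : ℝ) / m) with hx
  have hm0 : (0 : ℝ) < m := by exact_mod_cast hm
  have hx1 : 1 ≤ x := Real.one_le_rpow hX (by positivity)
  have hxm : x ^ m = X := by
    rw [hx, ← Real.rpow_natCast, ← Real.rpow_mul hX0.le]
    rw [one_div, inv_mul_cancel₀ hm0.ne', Real.rpow_one]
  have hlx : Real.log x = Real.log X / m := by
    rw [hx, Real.log_rpow hX0]; ring
  refine ⟨⌈x⌉₊, ?_, ?_, ?_⟩
  · exact Nat.one_le_iff_ne_zero.2 (Nat.ceil_pos.2 (by linarith)).ne'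
  · rw [← hxm]
    exact pow_le_pow_left₀ (by linarith) (Nat.le_ceil x) m
  · have h1 : ((⌈x⌉₊ : ℕ) : ℝ) < x + 1 := Nat.ceil_lt_add_one (by linarith)
    have h0 : (0 : ℝ) < ((⌈x⌉₊ : ℕ) : ℝ) := by
      exact_mod_cast Nat.ceil_pos.2 (by linarith)
    rw [← hlx, ← Real.log_mul (by norm_num) (by positivity)]
    exact Real.log_le_log h0 (by linarith)

/-- The arithmetic at the end. -/
theorem final (κ hJ cJ n L η δ K C P lB h0 : ℝ) (hκ : 0 ≤ κ) (hJ0 : 0 < hJ) (hcJ : 4 ≤ cJ)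
    (hcn : cJ ≤ n) (hL : 0 < L) (hη : 0 < η) (hδ : 0 < δ) (hδ1 : δ < 1)
    (hP : 0 ≤ P) (hh0 : 0 ≤ h0) (hC : C = P + (lB + h0)) (hlB : 0 ≤ lB)
    (hmain : (1 - δ) * (hJ / (cJ + κ)) ≤ lB + (P + hJ - η * L) / (cJ - 3) + h0)
    (hδh : δ * hJ ≤ η / 4 * L)
    (hθ : (κ + 3) * (hJ / (cJ + κ)) ≤ η / 4 * L) (hbig : 2 * n * C / η < L) : False := by
  have hm3 : 0 < cJ - 3 := by linarith
  have hck : 0 < cJ + κ := by linarith
  have h1 : (1 - δ) * (hJ / (cJ + κ)) * (cJ - 3) ≤ (lB + h0) * (cJ - 3) + (P + hJ - η * L) := by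
    have := mul_le_mul_of_nonneg_right hmain hm3.le
    have e : (lB + (P + hJ - η * L) / (cJ - 3) + h0) * (cJ - 3)
        = (lB + h0) * (cJ - 3) + (P + hJ - η * L) := by
      field_simp
      ring
    linarith
  have h2 : (hJ / (cJ + κ)) * (cJ - 3) = hJ - (κ + 3) * (hJ / (cJ + κ)) := by
    field_simp
    ring
  have h3 : (1 - δ) * (hJ / (cJ + κ)) * (cJ - 3) = (1 - δ) * hJ
      - (1 - δ) * ((κ + 3) * (hJ / (cJ + κ))) := by
    rw [mul_assoc, h2]; ring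
  have h4 : 0 ≤ (κ + 3) * (hJ / (cJ + κ)) := by positivity
  have h5 : (1 - δ) * ((κ + 3) * (hJ / (cJ + κ))) ≤ (κ + 3) * (hJ / (cJ + κ)) := by
    nlinarith
  have h6 : (lB + h0) * (cJ - 3) + P ≤ n * C := by
    rw [hC]
    have a1 : (lB + h0) * (cJ - 3) ≤ (lB + h0) * n :=
      mul_le_mul_of_nonneg_left (by linarith) (by linarith)
    have a2 : P ≤ n * P := by nlinarith
    linarith
  have h7 : η * L ≤ n * C + η / 2 * L := by linarith
  have h8 : 2 * n * C < L * η := by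
    rwa [div_lt_iff₀ hη] at hbig
  linarith

/-- The extremal argument for a fixed number of points. -/
theorem core (κ K : ℕ) (η : ℝ) (hK : 1 ≤ K) (hη : 0 < η) (hη1 : η ≤ 1) (hBUD : SpecBUD)
    (hVAN : ∀ (N : ℕ) (δ : ℝ), 0 < δ → δ < 1 → ∃ h₀ : ℝ, 0 ≤ h₀ ∧
    ∀ (p : Fin N → ℕ × ℕ) (c : Fin N → ℤ) (B : ℝ), 1 ≤ B → c ≠ 0 → (∀ j, |(c j : ℝ)| ≤ B) →
      ∑ j, c j * (V (p j) : ℤ) = 0 →
      ∃ I : Finset (Fin N), 2 ≤ I.card ∧ (∀ j ∈ I, c j ≠ 0) ∧
        (1 - δ) * hgt I (fun j => V (p j)) ≤ (I.card + κ : ℝ) * Real.log B + h₀)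
    (n : ℕ) (hn : 20 * K * (κ + 3) / η ≤ (n : ℝ)) :
    ∃ q₀ : ℕ, ∀ q : ℕ, q₀ ≤ q →
    Nat.Coprime q 6 → ∀ a : ℤ, IsCoprime a (q : ℤ) → ∀ (p : Fin n → ℕ × ℕ) (r : Fin n → ℤ),
      (∀ j, Real.log (V (p j)) ≤ 5 * K * Real.log q) →
      (∀ j, (q : ℤ) ∣ (V (p j) : ℤ) * a - r j) →
      (∀ i j, |((r i - r j : ℤ) : ℝ)| ≤ 2 * (q : ℝ) ^ (1 - η)) →
      (∀ i j, i ≠ j → 2 * Real.log q ≤ hgt {i, j} (fun j => V (p j))) → False := by
  classical
  have hKR : (1 : ℝ) ≤ K := by exact_mod_cast hK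
  have hκR : (0 : ℝ) ≤ κ := Nat.cast_nonneg _
  set δ : ℝ := η / (20 * K) with hδdef
  have hδ : 0 < δ := by positivity
  have hδ1 : δ < 1 := by
    rw [hδdef, div_lt_one (by positivity)]
    nlinarith
  obtain ⟨h₀, hh₀, hvan⟩ := hVAN n δ hδ hδ1
  have hn' : 20 * K * (κ + 3) ≤ n * η := by
    rwa [div_le_iff₀ hη] at hn
  have hn60 : (60 : ℝ) ≤ n := by
    have h1 : (60 : ℝ) ≤ 20 * K * (κ + 3) := by nlinarith
    have h2 : (n : ℝ) * η ≤ n := by
      have : (0 : ℝ) ≤ n := Nat.cast_nonneg _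
      nlinarith
    linarith
  have hn1 : (1 : ℝ) ≤ n := by linarith
  have hn60' : 60 ≤ n := by exact_mod_cast hn60
  set P : ℝ := Real.log (10 * (n : ℝ) ^ 2) with hPdef
  have hP0 : 0 ≤ P := Real.log_nonneg (by nlinarith)
  set lB : ℝ := Real.log n + Real.log 2 with hlB
  have hlB0 : 0 ≤ lB := add_nonneg (Real.log_nonneg hn1) (Real.log_nonneg (by norm_num))
  set C : ℝ := P + (lB + h₀) with hC
  refine ⟨⌈Real.exp (2 * n * C / η + 1)⌉₊ + 2, ?_⟩
  intro q hq hq6 a ha p r hlog hr hrr hsep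
  have hq2 : 2 ≤ q := by omega
  have hqR : (0 : ℝ) < q := by
    have : 0 < q := by omega
    exact_mod_cast this
  set L : ℝ := Real.log q with hLdef
  have hL0 : 0 < L := Real.log_pos (by exact_mod_cast hq2)
  have hLbig : 2 * n * C / η < L := by
    have h1 : Real.exp (2 * n * C / η + 1) ≤ q := by
      refine (Nat.le_ceil _).trans ?_
      have : ⌈Real.exp (2 * n * C / η + 1)⌉₊ ≤ q := by omega
      exact_mod_cast this
    have h2 := Real.log_le_log (Real.exp_pos _) h1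
    rw [Real.log_exp] at h2
    linarith
  set v : Fin n → ℕ := fun j => V (p j) with hv
  have hv0 : ∀ j, 0 < v j := fun j => V_pos _
  have hlow : ∀ J : Finset (Fin n), 2 ≤ J.card → 2 * L ≤ hgt J v := by
    intro J hJ
    obtain ⟨i, hi, j, hj, hij⟩ := Finset.one_lt_card.1 (by omega : 1 < J.card)
    refine (hsep i j hij).trans (hgt_mono hv0 ⟨i, by simp⟩ ?_)
    intro x hx
    simp only [Finset.mem_insert, Finset.mem_singleton] at hx
    rcases hx with rfl | rfl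
    · exact hi
    · exact hj
  have hup : ∀ J : Finset (Fin n), 2 ≤ J.card → hgt J v ≤ 5 * K * L := by
    intro J hJ
    exact hgt_le hv0 (Finset.card_pos.1 (by omega)) _ hlog
  -- the extremal subset
  obtain ⟨J, hJmem, hJmax⟩ := Finset.exists_max_image
    (Finset.univ.filter fun J : Finset (Fin n) => 2 ≤ J.card)
    (fun J => ((J.card : ℝ) + κ) / hgt J v) ⟨Finset.univ, by simp; omega⟩
  have hJ2 : 2 ≤ J.card := by simpa using hJmem
  set hJ : ℝ := hgt J v with hhJ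
  have hJlow : 2 * L ≤ hJ := hlow J hJ2
  have hJup : hJ ≤ 5 * K * L := hup J hJ2
  have hJ0 : 0 < hJ := by linarith
  have hcJn : (J.card : ℝ) ≤ n := by
    have : J.card ≤ n := by
      have := Finset.card_le_univ J
      simpa using this
    exact_mod_cast this
  have hcJ0 : (2 : ℝ) ≤ J.card := by exact_mod_cast hJ2
  have hθn : (n : ℝ) / (5 * K * L) ≤ ((J.card : ℝ) + κ) / hJ := by
    have hu2 : 2 ≤ (Finset.univ : Finset (Fin n)).card := by simp; omega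
    have h1 := hJmax Finset.univ (by simp; omega)
    refine le_trans ?_ h1
    have h2 := hup Finset.univ hu2
    have h3 := hlow Finset.univ hu2
    have h4 : 0 < hgt Finset.univ v := by linarith
    simp only [Finset.card_univ, Fintype.card_fin]
    exact div_le_div₀ (by linarith) (by linarith) h4 h2
  have hKL : 0 < 5 * (K : ℝ) * L := by positivity
  have hJ4 : 4 ≤ J.card := by
    have h1 : (n : ℝ) * hJ ≤ ((J.card : ℝ) + κ) * (5 * K * L) := by
      rwa [div_le_div_iff₀ hKL hJ0] at hθn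
    have h2 : (n : ℝ) * (2 * L) ≤ ((J.card : ℝ) + κ) * (5 * K * L) :=
      (mul_le_mul_of_nonneg_left hJlow (by linarith)).trans h1
    have h3 : (n : ℝ) * 2 ≤ ((J.card : ℝ) + κ) * (5 * K) := by
      have h4 : ((n : ℝ) * 2) * L ≤ (((J.card : ℝ) + κ) * (5 * K)) * L := by linarith
      exact le_of_mul_le_mul_right h4 hL0
    have h5 : 20 * (K : ℝ) * (κ + 3) ≤ n := by
      have : (n : ℝ) * η ≤ n := by nlinarith
      linarith
    have h6 : (K : ℝ) * (8 * (κ + 3)) ≤ K * ((J.card : ℝ) + κ) := by nlinarith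
    have h7 : 8 * ((κ : ℝ) + 3) ≤ (J.card : ℝ) + κ :=
      le_of_mul_le_mul_left h6 (by linarith)
    have h8 : (4 : ℝ) ≤ J.card := by linarith
    exact_mod_cast h8
  have hcJ4 : (4 : ℝ) ≤ J.card := by exact_mod_cast hJ4
  have hm1 : 1 ≤ J.card - 3 := by omega
  have hmcast : ((J.card - 3 : ℕ) : ℝ) = (J.card : ℝ) - 3 := by
    rw [Nat.cast_sub (by omega)]; norm_num
  -- the choice of `B`
  have hX : Real.log (10 * (n : ℝ) ^ 2 * Real.exp hJ * (q : ℝ) ^ (-η)) = P + hJ - η * L := by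
    rw [Real.log_mul (by positivity) (by positivity), Real.log_mul (by positivity) (by positivity),
      Real.log_exp, Real.log_rpow hqR]
    ring
  have hX1 : 1 ≤ 10 * (n : ℝ) ^ 2 * Real.exp hJ * (q : ℝ) ^ (-η) := by
    rw [← Real.log_nonneg_iff (by positivity), hX]
    nlinarith
  obtain ⟨B, hB1, hBX, hBlog⟩ := choose_B _ hX1 (J.card - 3) hm1
  rw [hX, hmcast] at hBlog
  have hBR : (1 : ℝ) ≤ B := by exact_mod_cast hB1
  -- the relation
  obtain ⟨c, hc0, hcJ, hcB, hcv⟩ := hBUD n J v r q a η B hJ4 (fun j _ => hv0 j)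
    (by
      intro i _ j _ hij
      by_contra hne
      have h1 := hsep i j hne
      rw [hgt_pair_eq _ i j hij] at h1
      linarith)
    hq2 ha
    (by
      intro j _
      have h2 : Nat.Coprime 2 q := (Nat.Coprime.coprime_dvd_right (by norm_num) hq6).symm
      have h3 : Nat.Coprime 3 q := (Nat.Coprime.coprime_dvd_right (by norm_num) hq6).symm
      exact Nat.Coprime.mul_left (h2.pow_left _) (h3.pow_left _))
    (fun j _ => hr j) hη hη1 (fun i _ j _ => hrr i j) hJlow hB1 hBX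
  have hnB : 1 ≤ (n : ℝ) * B := by nlinarith
  obtain ⟨I, hI2, -, hIle⟩ := hvan p c (n * B) hnB hc0
    (by
      intro j
      have := hcB j
      exact_mod_cast this)
    hcv
  have hIcard : (2 : ℝ) ≤ I.card := by exact_mod_cast hI2
  have hIlow := hlow I hI2
  have hI0 : 0 < hgt I v := by linarith
  have hImax := hJmax I (by simp; omega)
  have hIge : ((I.card : ℝ) + κ) * (hJ / ((J.card : ℝ) + κ)) ≤ hgt I v := by
    rw [div_le_div_iff₀ hI0 hJ0] at hImax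
    rw [← mul_div_assoc, div_le_iff₀ (by linarith)]
    linarith
  have hmain : (1 - δ) * (hJ / ((J.card : ℝ) + κ)) ≤ lB + (P + hJ - η * L) / ((J.card : ℝ) - 3)
      + h₀ := by
    have h1 : (1 - δ) * (((I.card : ℝ) + κ) * (hJ / ((J.card : ℝ) + κ)))
        ≤ (I.card + κ : ℝ) * Real.log (n * B) + h₀ :=
      (mul_le_mul_of_nonneg_left hIge (by linarith)).trans hIle
    have h2 : Real.log ((n : ℝ) * B) = Real.log n + Real.log B :=
      Real.log_mul (by linarith) (by linarith)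
    have h3 : ((I.card : ℝ) + κ) * ((1 - δ) * (hJ / ((J.card : ℝ) + κ)))
        ≤ ((I.card : ℝ) + κ) * (Real.log (n * B) + h₀) := by
      nlinarith
    have h4 := le_of_mul_le_mul_left h3 (by linarith)
    rw [h2] at h4
    rw [hlB]
    linarith
  refine final κ hJ J.card n L η δ K C P lB h₀ hκR hJ0 hcJ4 hcJn hL0 hη hδ hδ1 hP0 hh₀ hC hlB0
    hmain ?_ ?_ hLbig
  · -- `δ * hJ ≤ η / 4 * L`
    have h1 : δ * hJ ≤ δ * (5 * K * L) := mul_le_mul_of_nonneg_left hJup hδ.le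
    have h2 : δ * (5 * K * L) = η / 4 * L := by
      rw [hδdef]; field_simp; norm_num
    linarith
  · -- `(κ + 3) / θ ≤ η / 4 * L`
    have hck : (0 : ℝ) < (J.card : ℝ) + κ := by linarith
    have h1 : (n : ℝ) * hJ ≤ ((J.card : ℝ) + κ) * (5 * K * L) := by
      rwa [div_le_div_iff₀ hKL hJ0] at hθn
    rw [← mul_div_assoc, div_le_iff₀ hck]
    -- `(κ+3) hJ ≤ η/4 L (card + κ)`
    have h2 : 20 * K * ((κ : ℝ) + 3) * hJ ≤ (n * η) * hJ :=
      mul_le_mul_of_nonneg_right hn' hJ0.le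
    have h3 : (n * η) * hJ ≤ η * (((J.card : ℝ) + κ) * (5 * K * L)) := by
      have := mul_le_mul_of_nonneg_left h1 hη.le
      linarith
    have h4 : (K : ℝ) * (((κ : ℝ) + 3) * hJ) ≤ K * (η / 4 * L * ((J.card : ℝ) + κ)) := by
      linarith
    exact le_of_mul_le_mul_left h4 (by linarith)

end EXTM

open EXTM in
/-- **EXT**. -/
theorem specEXT (hVAN : SpecVAN) (hBUD : SpecBUD) : SpecEXT := by
  obtain ⟨κ, hκ⟩ := hVAN
  refine ⟨21 * (κ + 3), ?_⟩
  intro K η hK hη hη1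
  obtain ⟨q₀, hq₀⟩ := core κ K η hK hη hη1 hBUD hκ ⌈20 * K * (κ + 3) / η⌉₊ (Nat.le_ceil _)
  refine ⟨q₀, ?_⟩
  intro q hq hq6 a ha n p r hlog hr hrr hsep
  by_contra hcon
  push Not at hcon
  have hKR : (1 : ℝ) ≤ K := by exact_mod_cast hK
  have hκR : (0 : ℝ) ≤ κ := Nat.cast_nonneg _
  have hn0 : ⌈20 * K * ((κ : ℝ) + 3) / η⌉₊ ≤ n := by
    have h1 : ((⌈20 * K * ((κ : ℝ) + 3) / η⌉₊ : ℕ) : ℝ) < 20 * K * ((κ : ℝ) + 3) / η + 1 :=
      Nat.ceil_lt_add_one (by positivity)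
    have h2 : (1 : ℝ) ≤ K * ((κ : ℝ) + 3) / η := by
      rw [le_div_iff₀ hη]
      nlinarith
    have h3 : 20 * K * ((κ : ℝ) + 3) / η + K * ((κ : ℝ) + 3) / η
        = ((21 * (κ + 3) : ℕ) : ℝ) * K / η := by
      push_cast; ring
    have h4 : ((⌈20 * K * ((κ : ℝ) + 3) / η⌉₊ : ℕ) : ℝ) < n := by linarith
    exact_mod_cast h4.le
  refine hq₀ q hq hq6 a ha (fun j => p (Fin.castLE hn0 j)) (fun j => r (Fin.castLE hn0 j))
    (fun j => hlog _) (fun j => hr _) (fun i j => hrr _ _) ?_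
  intro i j hij
  rw [hgt_pair (fun x => V (p x)) (Fin.castLE hn0) i j]
  exact hsep _ _ (fun h => hij (Fin.castLE_injective hn0 h))

end Pool.Agent.Lib.MP_715eb0_an.NC
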