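import Pool.Agent.Lib.MP_715eb0_an.NC.Spec

/-!
# Module ARC: averaging over the orbit
-/

set_option autoImplicit false

namespace Pool.Agent.Lib.MP_715eb0_an.NC

namespace ARCM

lemma exists_inv {x : T} (hx : (addOrderOf x).Coprime 6) (p : ℕ × ℕ) :
    ∃ d : ℕ, ∀ z ∈ Orb x, d • (V p • z) = z := by
  have hx0 := pos_of_coprime hx
  set n := Nat.totient (addOrderOf x) with hn
  have hn0 : 0 < n := Nat.totient_pos.mpr hx0
  refine ⟨V p ^ (n - 1), ?_⟩
  intro z hz
  rw [← mul_nsmul]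
  have h1 : V p * V p ^ (n - 1) = V p ^ n := by
    rw [← pow_succ']
    congr 1
    omega
  rw [h1]
  have h2 : V p ^ n ≡ 1 [MOD addOrderOf z] := by
    rw [order_of_mem_Orb hx hz]
    exact Nat.ModEq.pow_totient (coprime_two_three hx p.1 p.2)
  have h3 := (nsmul_eq_nsmul_iff_modEq (x := z)).mpr h2
  rw [h3, one_nsmul]

lemma maps {x : T} (hx : (addOrderOf x).Coprime 6) (p : ℕ × ℕ) {z : T} (hz : z ∈ Orb x) :
    V p • z ∈ Orb x := by
  refine mem_Orb_trans hx hz ((mem_Orb ?_).mpr ⟨p.1, p.2, rfl⟩)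
  rw [order_of_mem_Orb hx hz]
  exact pos_of_coprime hx

lemma card_eq {x : T} (hx : (addOrderOf x).Coprime 6) (p : ℕ × ℕ) (P : T → Prop) [DecidablePred P] :
    ((Orb x).filter fun z => P (V p • z)).card = ((Orb x).filter P).card := by
  classical
  obtain ⟨d, hd⟩ := exists_inv hx p
  have hinj : Set.InjOn (fun z : T => V p • z) (Orb x : Set T) := by
    intro z hz z' hz' he
    have he' : V p • z = V p • z' := he
    rw [← hd z hz, he', hd z' hz']
  have him : (Orb x).image (fun z : T => V p • z) = Orb x := by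
    refine Finset.eq_of_subset_of_card_le ?_ ?_
    · intro z hz
      obtain ⟨w, hw, rfl⟩ := Finset.mem_image.1 hz
      exact maps hx p hw
    · rw [Finset.card_image_of_injOn hinj]
  have h1 : ((Orb x).filter P) = ((Orb x).filter fun z => P (V p • z)).image fun z => V p • z := by
    ext z
    constructor
    · intro hz
      rw [Finset.mem_filter] at hz
      have hz' := hz.1
      rw [← him, Finset.mem_image] at hz'
      obtain ⟨w, hw, hwz⟩ := hz'
      have hwz' : V p • w = z := hwz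
      refine Finset.mem_image.2 ⟨w, Finset.mem_filter.2 ⟨hw, ?_⟩, hwz⟩
      rw [hwz']
      exact hz.2
    · intro hz
      obtain ⟨w, hw, hwz⟩ := Finset.mem_image.1 hz
      have hwz' : V p • w = z := hwz
      rw [Finset.mem_filter] at hw
      refine Finset.mem_filter.2 ⟨?_, ?_⟩
      · rw [← hwz']
        exact maps hx p hw.1
      · rw [← hwz']
        exact hw.2
  rw [h1, Finset.card_image_of_injOn]
  intro z hz z' hz' he
  exact hinj (Finset.mem_filter.1 (Finset.mem_coe.1 hz)).1 (Finset.mem_filter.1 (Finset.mem_coe.1 hz')).1 he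

lemma near {z : T} {q : ℕ} (hq0 : 0 < q) (hz : addOrderOf z = q) :
    ∃ a : ℤ, IsCoprime a (q : ℤ) ∧ ∀ (p : ℕ × ℕ) (y' ρ : ℝ),
      dist (V p • z) (y' : T) ≤ ρ → ∃ k : ℤ, |(V p : ℝ) * (a / q) - y' - k| ≤ ρ := by
  obtain ⟨m, _, hm, hmz⟩ := (AddCircle.addOrderOf_eq_pos_iff hq0).1 hz
  refine ⟨(m : ℤ), Nat.isCoprime_iff_coprime.2 hm, ?_⟩
  intro p y' ρ h
  have e : V p • z - (y' : T) = (((V p : ℝ) * (((m : ℤ) : ℝ) / q) - y' : ℝ) : T) := by
    rw [← hmz, ← AddCircle.coe_nsmul, ← AddCircle.coe_sub]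
    congr 2
    rw [nsmul_eq_mul]
    push_cast
    ring
  rw [dist_eq_norm, e, AddCircle.norm_eq] at h
  refine ⟨round ((1 : ℝ)⁻¹ * ((V p : ℝ) * (((m : ℤ) : ℝ) / q) - y')), ?_⟩
  rw [mul_one] at h
  exact h

end ARCM

open ARCM

theorem specARC (hCNT : SpecCNT) : SpecARC := by
  classical
  intro ε η hε hη
  obtain ⟨K, q₀, hK, hq⟩ := hCNT ε η hε hη
  refine ⟨q₀, ?_⟩
  intro x hx hqx y
  obtain ⟨y', rfl⟩ := QuotientAddGroup.mk_surjective y
  have hq0 : 0 < addOrderOf x := pos_of_coprime hx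
  set q := addOrderOf x with hqdef
  set ρ : ℝ := (q : ℝ) ^ (-η) with hρ
  set M := K * (Nat.log 2 q + 1) with hM
  have hM0 : 0 < M := by positivity
  set W : Finset (ℕ × ℕ) := Finset.range M ×ˢ Finset.range M with hW
  have hWc : W.card = M * M := by
    rw [hW, Finset.card_product, Finset.card_range]
  have hcnt : ∀ z ∈ Orb x, ((W.filter fun p => dist (V p • z) (y' : T) ≤ ρ).card : ℝ) ≤
      ε * (M : ℝ) ^ 2 := by
    intro z hz
    obtain ⟨a, ha, hnear⟩ := near (z := z) hq0 (order_of_mem_Orb hx hz)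
    have h1 := hq q hqx hx a ha y'
    have hsub : ((W.filter fun p => dist (V p • z) (y' : T) ≤ ρ : Finset (ℕ × ℕ)) : Set (ℕ × ℕ)) ⊆
        {p : ℕ × ℕ | p.1 < K * (Nat.log 2 q + 1) ∧ p.2 < K * (Nat.log 2 q + 1) ∧
        ∃ k : ℤ, |(V p : ℝ) * (a / q) - y' - k| ≤ (q : ℝ) ^ (-η)} := by
      intro p hp
      rw [Finset.mem_coe, Finset.mem_filter, hW, Finset.mem_product, Finset.mem_range,
        Finset.mem_range] at hp
      exact ⟨hp.1.1, hp.1.2, hnear p y' ρ hp.2⟩
    have hfin : ({p : ℕ × ℕ | p.1 < K * (Nat.log 2 q + 1) ∧ p.2 < K * (Nat.log 2 q + 1) ∧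
        ∃ k : ℤ, |(V p : ℝ) * (a / q) - y' - k| ≤ (q : ℝ) ^ (-η)}).Finite := by
      refine (W.finite_toSet).subset ?_
      intro p hp
      rw [Finset.mem_coe, hW, Finset.mem_product, Finset.mem_range, Finset.mem_range]
      exact ⟨hp.1, hp.2.1⟩
    have h2 := Set.ncard_le_ncard hsub hfin
    rw [Set.ncard_coe_finset] at h2
    have h3 : ((W.filter fun p => dist (V p • z) (y' : T) ≤ ρ).card : ℝ) ≤ _ := Nat.cast_le.2 h2
    refine h3.trans (h1.trans (le_of_eq ?_))
    rw [hM]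
    push_cast
    ring
  have hset : {z : T | z ∈ Orb x ∧ dist z (y' : T) ≤ ρ} =
      (((Orb x).filter fun z => dist z (y' : T) ≤ ρ : Finset T) : Set T) := by
    ext z
    simp
  show ((Set.ncard {z : T | z ∈ Orb x ∧ dist z (y' : T) ≤ ρ} : ℕ) : ℝ) ≤ ε * (Orb x).card
  rw [hset, Set.ncard_coe_finset]
  have hdc : ∑ p ∈ W, ((Orb x).filter fun z => dist (V p • z) (y' : T) ≤ ρ).card =
      ∑ z ∈ Orb x, (W.filter fun p => dist (V p • z) (y' : T) ≤ ρ).card := by
    simp only [Finset.card_filter]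
    exact Finset.sum_comm
  have hl : ∑ p ∈ W, ((Orb x).filter fun z => dist (V p • z) (y' : T) ≤ ρ).card =
      M * M * ((Orb x).filter fun z => dist z (y' : T) ≤ ρ).card := by
    rw [← hWc, ← smul_eq_mul, ← Finset.sum_const]
    refine Finset.sum_congr rfl fun p _ => ?_
    exact card_eq hx p (fun z => dist z (y' : T) ≤ ρ)
  rw [hl] at hdc
  have hdc' : ((M : ℝ) * M) * (((Orb x).filter fun z => dist z (y' : T) ≤ ρ).card : ℝ) =
      ∑ z ∈ Orb x, ((W.filter fun p => dist (V p • z) (y' : T) ≤ ρ).card : ℝ) := by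
    exact_mod_cast hdc
  have hr : ∑ z ∈ Orb x, ((W.filter fun p => dist (V p • z) (y' : T) ≤ ρ).card : ℝ) ≤
      (Orb x).card * (ε * (M : ℝ) ^ 2) := by
    rw [← nsmul_eq_mul]
    exact Finset.sum_le_card_nsmul _ _ _ hcnt
  have hM1 : (0 : ℝ) < M * M := by positivity
  have hfin : ((M : ℝ) * M) * (((Orb x).filter fun z => dist z (y' : T) ≤ ρ).card : ℝ) ≤
      ((M : ℝ) * M) * (ε * (Orb x).card) := by
    rw [hdc']
    refine hr.trans (le_of_eq ?_)
    ring
  exact le_of_mul_le_mul_left hfin hM1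

end Pool.Agent.Lib.MP_715eb0_an.NC
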