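import Pool.Agent.Lib.MP_715eb0_an.NC.Spec

/-!
# MP_715eb0_an, no concentration: a relation with small coefficients (module BUD)
-/

set_option autoImplicit false

namespace Pool.Agent.Lib.MP_715eb0_an.NC

namespace BUDM

/-- The Lagrange identity. -/
theorem lagrange {ι : Type} [Fintype ι] (x y : ι → ℤ) :
    ∑ i, ∑ j, (x i * y j - x j * y i) ^ 2 = 2 * gram x y := by
  have h1 : ∀ i j : ι, (x i * y j - x j * y i) ^ 2
      = x i ^ 2 * y j ^ 2 - 2 * ((x i * y i) * (x j * y j)) + y i ^ 2 * x j ^ 2 := by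
    intro i j; ring
  simp only [h1, Finset.sum_add_distrib, Finset.sum_sub_distrib, ← Finset.mul_sum,
    ← Finset.sum_mul]
  unfold gram
  ring

theorem gram_lin {ι : Type} [Fintype ι] (w k ρ : ι → ℤ) (a q : ℤ)
    (h : ∀ i, a * w i - ρ i = q * k i) : gram w ρ = q ^ 2 * gram w k := by
  have hρ : ∀ i, ρ i = a * w i - q * k i := fun i => by linarith [h i]
  have h1 : ∑ i, ρ i ^ 2 = a ^ 2 * ∑ i, w i ^ 2 - 2 * a * q * ∑ i, w i * k i
      + q ^ 2 * ∑ i, k i ^ 2 := by
    rw [Finset.mul_sum, Finset.mul_sum, Finset.mul_sum, ← Finset.sum_sub_distrib,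
      ← Finset.sum_add_distrib]
    refine Finset.sum_congr rfl fun i _ => ?_
    rw [hρ i]; ring
  have h2 : ∑ i, w i * ρ i = a * ∑ i, w i ^ 2 - q * ∑ i, w i * k i := by
    rw [Finset.mul_sum, Finset.mul_sum, ← Finset.sum_sub_distrib]
    refine Finset.sum_congr rfl fun i _ => ?_
    rw [hρ i]; ring
  unfold gram
  rw [h1, h2]
  ring

theorem l1_nonneg {ι : Type} [Fintype ι] (u : ι → ℤ) : 0 ≤ l1 u :=
  Finset.sum_nonneg fun i _ => abs_nonneg _

theorem l1_sq {ι : Type} [Fintype ι] (u : ι → ℤ) :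
    l1 u ^ 2 ≤ (Fintype.card ι : ℤ) * ∑ i, u i ^ 2 := by
  unfold l1
  have h := sq_sum_le_card_mul_sum_sq (s := (Finset.univ : Finset ι)) (f := fun i => |u i|)
  simp only [sq_abs, Finset.card_univ] at h
  exact h

theorem l1_le {ι : Type} [Fintype ι] (u : ι → ℤ) (T : ℝ) (h : ∀ i, |(u i : ℝ)| ≤ T) :
    (l1 u : ℝ) ≤ (Fintype.card ι : ℝ) * T := by
  unfold l1
  push_cast
  calc ∑ i, |(u i : ℝ)| ≤ ∑ _i : ι, T := Finset.sum_le_sum fun i _ => h i
    _ = (Fintype.card ι : ℝ) * T := by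
        rw [Finset.sum_const, Finset.card_univ, nsmul_eq_mul]

theorem sumsq_le {ι : Type} [Fintype ι] (u : ι → ℤ) (T : ℝ) (h : ∀ i, |(u i : ℝ)| ≤ T) :
    ((∑ i, u i ^ 2 : ℤ) : ℝ) ≤ (Fintype.card ι : ℝ) * T ^ 2 := by
  push_cast
  calc ∑ i, (u i : ℝ) ^ 2 ≤ ∑ _i : ι, T ^ 2 := Finset.sum_le_sum fun i _ => by
        rw [← sq_abs]
        exact pow_le_pow_left₀ (abs_nonneg _) (h i) 2
    _ = (Fintype.card ι : ℝ) * T ^ 2 := by
        rw [Finset.sum_const, Finset.card_univ, nsmul_eq_mul]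

/-- The two cases of the pigeonhole argument. -/
theorem core (hPIG : SpecPIG) (hRDU : SpecRDU) {ι : Type} [Fintype ι] (w ρ k : ι → ℤ) (q : ℕ)
    (a : ℤ) (η M : ℝ) (n B : ℕ) (hm : 3 ≤ Fintype.card ι) (hmn : Fintype.card ι ≤ n)
    (hw : w ≠ 0) (hq : 2 ≤ q) (ha : IsCoprime a (q : ℤ)) (hk : ∀ i, a * w i - ρ i = q * k i)
    (hη1 : η ≤ 1) (hwM : ∀ i, |(w i : ℝ)| ≤ M)
    (hρ : ∀ i, |(ρ i : ℝ)| ≤ 2 * (q : ℝ) ^ (1 - η)) (hM : (q : ℝ) ≤ M) (hB : 1 ≤ B)
    (hbd : 10 * (n : ℝ) ^ 2 * M * (q : ℝ) ^ (-η) ≤ (B : ℝ) ^ (Fintype.card ι - 2)) :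
    ∃ c : ι → ℤ, c ≠ 0 ∧ (∀ i, |c i| ≤ B) ∧ ∑ i, c i * w i = 0 := by
  have hq0 : (0 : ℝ) < q := by positivity
  have hq1 : (1 : ℝ) ≤ q := by exact_mod_cast (by omega : 1 ≤ q)
  have hM0 : 0 < M := lt_of_lt_of_le hq0 hM
  have hmR : (3 : ℝ) ≤ (Fintype.card ι : ℝ) := by exact_mod_cast hm
  have hmnR : (Fintype.card ι : ℝ) ≤ n := by exact_mod_cast hmn
  have hqη : (0 : ℝ) < (q : ℝ) ^ (-η) := Real.rpow_pos_of_pos hq0 _
  have hq1η : (q : ℝ) ^ (1 - η) = q * (q : ℝ) ^ (-η) := by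
    rw [sub_eq_add_neg, Real.rpow_add hq0, Real.rpow_one]
  have hmm : (Fintype.card ι : ℝ) ≤ (n : ℝ) ^ 2 := by nlinarith
  set m : ℝ := (Fintype.card ι : ℝ) with hmdef
  have hm0 : (0 : ℝ) ≤ m := by linarith
  by_cases hg : gram w k = 0
  · -- the degenerate case
    have hcol : ∀ i j, k i * w j = k j * w i := by
      have h := lagrange w k
      rw [hg, mul_zero] at h
      intro i j
      have h1 := (Finset.sum_eq_zero_iff_of_nonneg (fun i _ => Finset.sum_nonneg
        (fun j _ => sq_nonneg (w i * k j - w j * k i)))).1 h i (Finset.mem_univ i)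
      have h2 := (Finset.sum_eq_zero_iff_of_nonneg
        (fun j _ => sq_nonneg (w i * k j - w j * k i))).1 h1 j (Finset.mem_univ j)
      have h3 : w i * k j - w j * k i = 0 := by simpa using h2
      linarith
    obtain ⟨i0, hi0⟩ : ∃ i, w i ≠ 0 := by
      by_contra hcon
      push Not at hcon
      exact hw (funext hcon)
    obtain ⟨z, hz, hz1⟩ := Finset.extract_gcd w (s := Finset.univ) ⟨i0, Finset.mem_univ i0⟩
    set D : ℤ := Finset.univ.gcd w with hD
    have hzw : ∀ i, w i = D * z i := fun i => hz i (Finset.mem_univ i)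
    have hD0 : D ≠ 0 := by
      intro h0
      apply hi0
      rw [hzw, h0, zero_mul]
    have hzi0 : z i0 ≠ 0 := by
      intro h0
      apply hi0
      rw [hzw, h0, mul_zero]
    have hcolz : ∀ i j, k i * z j = k j * z i := by
      intro i j
      have h := hcol i j
      rw [hzw i, hzw j] at h
      have h2 : D * (k i * z j) = D * (k j * z i) := by linarith
      exact mul_left_cancel₀ hD0 h2
    have hdvd : z i0 ∣ k i0 := by
      have h1 : z i0 ∣ Finset.univ.gcd (fun i => k i0 * z i) := by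
        apply Finset.dvd_gcd
        intro i _
        rw [hcolz i0 i]
        exact Dvd.intro_left _ rfl
      rw [Finset.gcd_mul_left, hz1, mul_one] at h1
      exact (dvd_normalize_iff).1 h1
    obtain ⟨κ, hκ⟩ := hdvd
    have hkz : ∀ j, k j = κ * z j := by
      intro j
      have h := hcolz i0 j
      rw [hκ] at h
      have h2 : z i0 * k j = z i0 * (κ * z j) := by linarith
      exact mul_left_cancel₀ hzi0 h2
    have hρz : ∀ j, ρ j = (a * D - q * κ) * z j := by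
      intro j
      have h := hk j
      rw [hkz j, hzw j] at h
      linarith
    have hznz : z ≠ 0 := fun h0 => hzi0 (by rw [h0]; rfl)
    have key : 2 * (l1 z : ℝ) ≤ 10 * (n : ℝ) ^ 2 * M * (q : ℝ) ^ (-η) := by
      have hMq : m * (M * (q : ℝ) ^ (-η)) ≤ (n : ℝ) ^ 2 * (M * (q : ℝ) ^ (-η)) :=
        mul_le_mul_of_nonneg_right hmm (by positivity)
      have hpos : 0 ≤ (n : ℝ) ^ 2 * (M * (q : ℝ) ^ (-η)) := by positivity
      by_cases he : a * D - q * κ = 0
      · have hqD : (q : ℤ) ∣ D := by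
          have h1 : (q : ℤ) ∣ a * D := ⟨κ, by linarith⟩
          exact (ha.symm).dvd_of_dvd_mul_left h1
        have hqD' : (q : ℝ) ≤ |(D : ℝ)| := by
          have h1 : (q : ℤ) ≤ |D| := Int.le_of_dvd (abs_pos.2 hD0) ((dvd_abs _ _).2 hqD)
          exact_mod_cast h1
        have hzb : ∀ i, |(z i : ℝ)| ≤ M * (q : ℝ) ^ (-η) := by
          intro i
          have h1 : (q : ℝ) * |(z i : ℝ)| ≤ M := by
            calc (q : ℝ) * |(z i : ℝ)| ≤ |(D : ℝ)| * |(z i : ℝ)| :=
                  mul_le_mul_of_nonneg_right hqD' (abs_nonneg _)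
              _ = |(w i : ℝ)| := by rw [← abs_mul, hzw i]; push_cast; rfl
              _ ≤ M := hwM i
          have h2 : |(z i : ℝ)| ≤ M * (q : ℝ) ^ (-1 : ℝ) := by
            rw [Real.rpow_neg_one, ← div_eq_mul_inv, le_div_iff₀ hq0]
            linarith
          refine h2.trans (mul_le_mul_of_nonneg_left ?_ hM0.le)
          exact Real.rpow_le_rpow_of_exponent_le hq1 (by linarith)
        have h := l1_le z _ hzb
        rw [← hmdef] at h
        nlinarith
      · have hzb : ∀ i, |(z i : ℝ)| ≤ 2 * (M * (q : ℝ) ^ (-η)) := by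
          intro i
          have h1 : |z i| ≤ |ρ i| := by
            rw [hρz i, abs_mul]
            have h2 : 1 ≤ |a * D - q * κ| := Int.one_le_abs he
            nlinarith [abs_nonneg (z i)]
          have h3 : |(z i : ℝ)| ≤ |(ρ i : ℝ)| := by exact_mod_cast h1
          refine h3.trans ((hρ i).trans ?_)
          rw [hq1η]
          have := mul_le_mul_of_nonneg_right hM hqη.le
          linarith
        have h := l1_le z _ hzb
        rw [← hmdef] at h
        nlinarith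
    have key2 : 2 * l1 z ≤ (B : ℤ) ^ (Fintype.card ι - 1) := by
      have h1 : 2 * (l1 z : ℝ) ≤ (B : ℝ) ^ (Fintype.card ι - 1) := by
        refine key.trans (hbd.trans ?_)
        exact pow_le_pow_right₀ (by exact_mod_cast hB) (by omega)
      exact_mod_cast h1
    obtain ⟨c, hc0, hcB, hcz⟩ := (hPIG ι B hB).2 z hznz (by omega) key2
    refine ⟨c, hc0, hcB, ?_⟩
    calc ∑ i, c i * w i = D * ∑ i, c i * z i := by
          rw [Finset.mul_sum]
          refine Finset.sum_congr rfl fun i _ => ?_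
          rw [hzw i]; ring
      _ = 0 := by rw [hcz, mul_zero]
  · -- the main case
    obtain ⟨u, u', hu, hu', huu, horth⟩ := hRDU ι w k hg
    have hG : (gram w k : ℝ) ≤ (2 * m * M * (q : ℝ) ^ (-η)) ^ 2 := by
      have h1 := gram_lin w k ρ a q hk
      have h2 : gram w ρ ≤ (∑ i, w i ^ 2) * (∑ i, ρ i ^ 2) := by
        unfold gram
        nlinarith [sq_nonneg (∑ i, w i * ρ i)]
      have h3 : ((q : ℝ)) ^ 2 * (gram w k : ℝ)
          ≤ ((∑ i, w i ^ 2 : ℤ) : ℝ) * ((∑ i, ρ i ^ 2 : ℤ) : ℝ) := by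
        rw [h1] at h2
        exact_mod_cast h2
      have h4 := sumsq_le w M hwM
      have h5 := sumsq_le ρ _ hρ
      rw [← hmdef] at h4 h5
      have h6 : ((∑ i, w i ^ 2 : ℤ) : ℝ) * ((∑ i, ρ i ^ 2 : ℤ) : ℝ)
          ≤ (m * M ^ 2) * (m * (2 * (q : ℝ) ^ (1 - η)) ^ 2) := by
        refine mul_le_mul h4 h5 ?_ (by positivity)
        have : (0 : ℤ) ≤ ∑ i, ρ i ^ 2 := Finset.sum_nonneg fun i _ => sq_nonneg _
        exact_mod_cast this
      have h7 : (q : ℝ) ^ 2 * (gram w k : ℝ)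
          ≤ (q : ℝ) ^ 2 * (2 * m * M * (q : ℝ) ^ (-η)) ^ 2 := by
        refine h3.trans (h6.trans (le_of_eq ?_))
        rw [hq1η]; ring
      exact le_of_mul_le_mul_left h7 (by positivity)
    have hprod : ((4 * (l1 u * l1 u') : ℤ) : ℝ) ≤ 10 * (n : ℝ) ^ 2 * M * (q : ℝ) ^ (-η) := by
      refine le_of_sq_le_sq ?_ (by positivity)
      have e1 := l1_sq u
      have e2 := l1_sq u'
      have hSu : (0 : ℤ) ≤ ∑ i, u i ^ 2 := Finset.sum_nonneg fun i _ => sq_nonneg _
      have hSu' : (0 : ℤ) ≤ ∑ i, u' i ^ 2 := Finset.sum_nonneg fun i _ => sq_nonneg _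
      have e3 : l1 u ^ 2 * l1 u' ^ 2 ≤ ((Fintype.card ι : ℤ) * ∑ i, u i ^ 2)
          * ((Fintype.card ι : ℤ) * ∑ i, u' i ^ 2) :=
        mul_le_mul e1 e2 (sq_nonneg _) (by positivity)
      have e4 : 3 * (l1 u ^ 2 * l1 u' ^ 2) ≤ (Fintype.card ι : ℤ) ^ 2 * (4 * gram w k) := by
        have := mul_le_mul_of_nonneg_left huu (sq_nonneg (Fintype.card ι : ℤ))
        linarith
      have e5 : 3 * ((l1 u : ℝ) ^ 2 * (l1 u' : ℝ) ^ 2) ≤ m ^ 2 * (4 * (gram w k : ℝ)) := by
        rw [hmdef]; exact_mod_cast e4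
      have e6 : m ^ 2 * (4 * (gram w k : ℝ))
          ≤ m ^ 2 * (4 * (2 * m * M * (q : ℝ) ^ (-η)) ^ 2) :=
        mul_le_mul_of_nonneg_left (by linarith) (sq_nonneg _)
      have e7 : m ^ 4 * (M * (q : ℝ) ^ (-η)) ^ 2 ≤ (n : ℝ) ^ 4 * (M * (q : ℝ) ^ (-η)) ^ 2 :=
        mul_le_mul_of_nonneg_right (pow_le_pow_left₀ hm0 hmnR 4) (sq_nonneg _)
      push_cast
      nlinarith [mul_nonneg (pow_nonneg hm0 4) (sq_nonneg (M * (q : ℝ) ^ (-η)))]
    have hprod2 : 4 * (l1 u * l1 u') ≤ (B : ℤ) ^ (Fintype.card ι - 2) := by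
      have h1 := hprod.trans hbd
      exact_mod_cast h1
    obtain ⟨c, hc0, hcB, h1, h2⟩ := (hPIG ι B hB).1 u u' hu hu' (by omega) hprod2
    exact ⟨c, hc0, hcB, (horth c h1 h2).1⟩

end BUDM

open BUDM in
/-- **BUD**. -/
theorem specBUD (hPIG : SpecPIG) (hRDU : SpecRDU) : SpecBUD := by
  classical
  intro n J v r q a η B hJ hv hinj hq ha hvq hr hη hη1 hrr hh hB hbd
  obtain ⟨j0, hj0⟩ : J.Nonempty := Finset.card_pos.1 (by omega)
  have hJn : J.card ≤ n := by
    have := Finset.card_le_univ J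
    simpa using this
  obtain ⟨v', hv', -⟩ := Finset.extract_gcd v (s := J) ⟨j0, hj0⟩
  set g : ℕ := J.gcd v with hg
  have hg0 : 0 < g := by
    rcases Nat.eq_zero_or_pos g with h0 | h0
    · have h1 := hv' j0 hj0
      rw [h0, zero_mul] at h1
      have := hv j0 hj0
      omega
    · exact h0
  have hsup : ∀ j ∈ J, v j ≤ J.sup v := fun j hj => Finset.le_sup (f := v) hj
  have hs0 : 0 < J.sup v := lt_of_lt_of_le (hv j0 hj0) (hsup j0 hj0)
  have hgR : (0 : ℝ) < g := by exact_mod_cast hg0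
  have hsR : (0 : ℝ) < ((J.sup v : ℕ) : ℝ) := by exact_mod_cast hs0
  have hM : Real.exp (hgt J v) = ((J.sup v : ℕ) : ℝ) / g := by
    unfold hgt
    rw [← hg, ← Real.log_div hsR.ne' hgR.ne', Real.exp_log (div_pos hsR hgR)]
  set M : ℝ := Real.exp (hgt J v) with hMdef
  have hv'M : ∀ j ∈ J, ((v' j : ℕ) : ℝ) ≤ M := by
    intro j hj
    rw [hM, le_div_iff₀ hgR]
    have h1 : g * v' j ≤ J.sup v := by rw [← hv' j hj]; exact hsup j hj
    have h2 : ((g * v' j : ℕ) : ℝ) ≤ ((J.sup v : ℕ) : ℝ) := by exact_mod_cast h1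
    push_cast at h2
    linarith
  have hq0 : (0 : ℝ) < q := by
    have : 0 < q := by omega
    exact_mod_cast this
  have hq1 : (1 : ℝ) ≤ q := by
    have : 1 ≤ q := by omega
    exact_mod_cast this
  have hqM : (q : ℝ) ≤ M := by
    rw [hMdef]
    have h0 : 0 ≤ Real.log q := Real.log_nonneg hq1
    calc (q : ℝ) = Real.exp (Real.log q) := (Real.exp_log hq0).symm
      _ ≤ Real.exp (hgt J v) := Real.exp_le_exp.2 (by linarith)
  have hcard : Fintype.card {j // j ∈ J.erase j0} = J.card - 1 := by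
    rw [Fintype.card_coe, Finset.card_erase_of_mem hj0]
  have hmemJ : ∀ i : {j // j ∈ J.erase j0}, (i : Fin n) ∈ J :=
    fun i => Finset.mem_of_mem_erase i.2
  have hgq : IsCoprime (g : ℤ) (q : ℤ) := by
    rw [Nat.isCoprime_iff_coprime]
    exact Nat.Coprime.coprime_dvd_left (Finset.gcd_dvd hj0) (hvq j0 hj0)
  have hkex : ∀ i : {j // j ∈ J.erase j0}, ∃ t : ℤ,
      (g * a) * ((v' i : ℤ) - v' j0) - (r i - r j0) = q * t := by
    intro i
    obtain ⟨s, hs⟩ := hr i (hmemJ i)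
    obtain ⟨s0, hs0'⟩ := hr j0 hj0
    refine ⟨s - s0, ?_⟩
    have e1 : ((v i : ℕ) : ℤ) = g * v' i := by exact_mod_cast hv' i (hmemJ i)
    have e2 : ((v j0 : ℕ) : ℤ) = g * v' j0 := by exact_mod_cast hv' j0 hj0
    rw [e1] at hs
    rw [e2] at hs0'
    linarith
  choose k hk using hkex
  have hwne : (fun i : {j // j ∈ J.erase j0} => ((v' i : ℤ) - v' j0)) ≠ 0 := by
    obtain ⟨j1, hj1⟩ : (J.erase j0).Nonempty := by
      apply Finset.card_pos.1
      rw [Finset.card_erase_of_mem hj0]; omega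
    intro h0
    have h1 := congrFun h0 ⟨j1, hj1⟩
    simp only [Pi.zero_apply] at h1
    have h2 : v' j1 = v' j0 := by
      have : (v' j1 : ℤ) = v' j0 := by linarith
      exact_mod_cast this
    have h3 : v j1 = v j0 := by
      rw [hv' j1 (Finset.mem_of_mem_erase hj1), hv' j0 hj0, h2]
    have h4 := hinj (Finset.mem_coe.2 (Finset.mem_of_mem_erase hj1)) (Finset.mem_coe.2 hj0) h3
    exact (Finset.ne_of_mem_erase hj1) h4
  obtain ⟨c, hc0, hcB, hcw⟩ := core hPIG hRDU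
    (fun i : {j // j ∈ J.erase j0} => ((v' i : ℤ) - v' j0)) (fun i => r i - r j0) k q
    (g * a) η M n B (by rw [hcard]; omega) (by rw [hcard]; omega) hwne hq
    (IsCoprime.mul_left hgq ha) hk hη1
    (by
      intro i
      have h1 := hv'M i (hmemJ i)
      have h2 := hv'M j0 hj0
      have h3 : (0 : ℝ) ≤ ((v' i : ℕ) : ℝ) := Nat.cast_nonneg _
      have h4 : (0 : ℝ) ≤ ((v' j0 : ℕ) : ℝ) := Nat.cast_nonneg _
      push_cast
      rw [abs_le]
      constructor <;> linarith)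
    (fun i => hrr i (hmemJ i) j0 hj0) hqM hB
    (by
      rw [hcard]
      have : J.card - 1 - 2 = J.card - 3 := by omega
      rw [this]
      exact hbd)
  -- extend the coefficients
  have hn1 : (1 : ℤ) ≤ n := by
    have : 1 ≤ n := by omega
    exact_mod_cast this
  have hB0 : (0 : ℤ) ≤ B := Int.natCast_nonneg _
  let C : Fin n → ℤ := fun j => if h : j ∈ J.erase j0 then c ⟨j, h⟩ else
    if j = j0 then - ∑ i, c i else 0
  have hC1 : ∀ i : {j // j ∈ J.erase j0}, C i = c i := by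
    intro i
    show (if h : (i : Fin n) ∈ J.erase j0 then c ⟨i, h⟩ else
      if (i : Fin n) = j0 then - ∑ i, c i else 0) = c i
    rw [dif_pos i.2]
  have hC2 : C j0 = - ∑ i, c i := by
    show (if h : j0 ∈ J.erase j0 then c ⟨j0, h⟩ else
      if j0 = j0 then - ∑ i, c i else 0) = _
    rw [dif_neg (Finset.notMem_erase j0 J), if_pos rfl]
  have hC3 : ∀ j ∉ J, C j = 0 := by
    intro j hj
    show (if h : j ∈ J.erase j0 then c ⟨j, h⟩ else
      if j = j0 then - ∑ i, c i else 0) = 0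
    rw [dif_neg (fun h => hj (Finset.mem_of_mem_erase h)), if_neg]
    rintro rfl
    exact hj hj0
  refine ⟨C, ?_, hC3, ?_, ?_⟩
  · intro h0
    apply hc0
    funext i
    rw [← hC1 i, h0]
    rfl
  · intro j
    by_cases hj : j ∈ J.erase j0
    · have h1 := hC1 ⟨j, hj⟩
      simp only at h1
      rw [h1]
      have h2 := hcB ⟨j, hj⟩
      nlinarith
    · by_cases hj' : j = j0
      · rw [hj', hC2, abs_neg]
        have h1 : |∑ i, c i| ≤ ∑ i, |c i| := Finset.abs_sum_le_sum_abs _ _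
        have h2 : ∑ i, |c i| ≤ ∑ _i : {j // j ∈ J.erase j0}, (B : ℤ) :=
          Finset.sum_le_sum fun i _ => hcB i
        rw [Finset.sum_const, Finset.card_univ, nsmul_eq_mul, hcard] at h2
        have h3 : ((J.card - 1 : ℕ) : ℤ) ≤ n := by
          have : J.card - 1 ≤ n := by omega
          exact_mod_cast this
        have h4 := mul_le_mul_of_nonneg_right h3 hB0
        linarith
      · have h1 : C j = 0 := by
          apply hC3
          intro hjJ
          exact hj (Finset.mem_erase.2 ⟨hj', hjJ⟩)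
        rw [h1, abs_zero]
        positivity
  · have h1 : ∑ j, C j * (v j : ℤ) = ∑ j ∈ J, C j * (v j : ℤ) := by
      symm
      apply Finset.sum_subset (Finset.subset_univ J)
      intro j _ hj
      rw [hC3 j hj, zero_mul]
    rw [h1, ← Finset.add_sum_erase J _ hj0, hC2]
    have h2 : ∑ j ∈ J.erase j0, C j * (v j : ℤ)
        = ∑ i : {j // j ∈ J.erase j0}, c i * (v i : ℤ) := by
      rw [← Finset.sum_coe_sort]
      exact Finset.sum_congr rfl fun i _ => by rw [hC1 i]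
    rw [h2, neg_mul, Finset.sum_mul, ← Finset.sum_neg_distrib, ← Finset.sum_add_distrib]
    have h3 : ∀ i : {j // j ∈ J.erase j0}, -(c i * (v j0 : ℤ)) + c i * (v i : ℤ)
        = g * (c i * ((v' i : ℤ) - v' j0)) := by
      intro i
      have e1 : ((v i : ℕ) : ℤ) = g * v' i := by exact_mod_cast hv' i (hmemJ i)
      have e2 : ((v j0 : ℕ) : ℤ) = g * v' j0 := by exact_mod_cast hv' j0 hj0
      rw [e1, e2]; ring
    rw [Finset.sum_congr rfl fun i _ => h3 i, ← Finset.mul_sum, hcw, mul_zero]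

end Pool.Agent.Lib.MP_715eb0_an.NC
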