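import Pool.Agent.Lib.MP_715eb0_an.NC.Spec

/-!
# MEA: no concentration at polynomial scales
-/

set_option autoImplicit false

open Pool.Agent.Lib.MP_d0e829_nt
open scoped ENNReal

namespace Pool.Agent.Lib.MP_715eb0_an.NC

namespace MEAM

open Classical in
lemma cnt_le (q : ℕ) : cnt q ≤ q := by
  have h : R q ⊆ Finset.range q := by
    intro r hr
    unfold R at hr
    exact (Finset.mem_filter.1 hr).1
  exact (Finset.card_le_card h).trans (Finset.card_range q).le

open Classical in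
lemma U_ball (S : Finset T) (hS : S.Nonempty) (y : T) (ρ ε : ℝ) (hε : 0 ≤ ε)
    (h : ((Set.ncard {z : T | z ∈ S ∧ dist z y ≤ ρ} : ℕ) : ℝ) ≤ ε * S.card) :
    U S (Metric.closedBall y ρ) ≤ ENNReal.ofReal ε := by
  rw [U_apply S Metric.isClosed_closedBall.measurableSet]
  have hc : (S.card : ℝ≥0∞) ≠ 0 := by
    simpa using hS.ne_empty
  rw [ENNReal.inv_mul_le_iff hc (ENNReal.natCast_ne_top _)]
  have h1 : ∑ z ∈ S, (Metric.closedBall y ρ).indicator (1 : T → ℝ≥0∞) z =
      ((S.filter fun z => dist z y ≤ ρ).card : ℝ≥0∞) := by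
    rw [Finset.card_filter, Nat.cast_sum]
    refine Finset.sum_congr rfl fun z _ => ?_
    by_cases hz : dist z y ≤ ρ
    · rw [Set.indicator_of_mem (Metric.mem_closedBall.2 hz), if_pos hz]
      simp
    · rw [Set.indicator_of_notMem (fun h => hz (Metric.mem_closedBall.1 h)), if_neg hz]
      simp
  have h2 : {z : T | z ∈ S ∧ dist z y ≤ ρ} = ((S.filter fun z => dist z y ≤ ρ : Finset T) : Set T) := by
    ext z
    simp
  rw [h1]
  rw [h2, Set.ncard_coe_finset] at h
  have h3 : (S.card : ℝ≥0∞) * ENNReal.ofReal ε = ENNReal.ofReal (ε * S.card) := by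
    rw [ENNReal.ofReal_mul hε, ENNReal.ofReal_natCast, mul_comm]
  rw [h3, ← ENNReal.ofReal_natCast]
  exact ENNReal.ofReal_le_ofReal h

end MEAM

open MEAM in
theorem specMEA (hARC : SpecARC) : SpecMEA := by
  intro ε η hε hη
  obtain ⟨q₀, hq⟩ := hARC ε η hε hη
  refine ⟨q₀, ?_⟩
  intro μ hE hN x hx y
  obtain ⟨x₀, h6, rfl⟩ := classify hE
  have hx' : x ∈ Orb x₀ := (U_singleton x).1 hx
  have ho : addOrderOf x = addOrderOf x₀ := order_of_mem_Orb h6 hx'
  have hO : Orb x = Orb x₀ := Orb_eq h6 hx'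
  rw [atoms_U_Orb] at hN
  have h1 : q₀ ≤ addOrderOf x := by
    rw [ho]
    exact hN.trans (cnt_le _)
  have h2 := hq x (by rw [ho]; exact h6) h1 y
  rw [← hO]
  refine U_ball (Orb x) ?_ y _ ε hε.le h2
  exact ⟨x, by rw [hO]; exact hx'⟩

end Pool.Agent.Lib.MP_715eb0_an.NC
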