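import Pool.Agent.Lib.MP_715eb0_an.NC.Spec

/-!
# MP_715eb0_an, module RDU: Gauss reduction of a lattice of rank two
-/

set_option autoImplicit false

namespace Pool.Agent.Lib.MP_715eb0_an.NC

namespace RDUM

variable {ι : Type} [Fintype ι]

lemma sum_sq_sub (u v : ι → ℤ) (s : ℤ) :
    ∑ i, (v i - s * u i) ^ 2
      = (∑ i, v i ^ 2) - 2 * s * (∑ i, u i * v i) + s ^ 2 * (∑ i, u i ^ 2) := by
  rw [Finset.mul_sum, Finset.mul_sum, ← Finset.sum_sub_distrib, ← Finset.sum_add_distrib]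
  apply Finset.sum_congr rfl
  intro i _
  ring

lemma sum_mul_sub (u v : ι → ℤ) (s : ℤ) :
    ∑ i, u i * (v i - s * u i) = (∑ i, u i * v i) - s * (∑ i, u i ^ 2) := by
  rw [Finset.mul_sum, ← Finset.sum_sub_distrib]
  apply Finset.sum_congr rfl
  intro i _
  ring

lemma gram_sub (u v : ι → ℤ) (s : ℤ) : gram u (fun i => v i - s * u i) = gram u v := by
  unfold gram
  rw [sum_sq_sub, sum_mul_sub]
  ring

lemma gram_comm (u v : ι → ℤ) : gram v u = gram u v := by
  unfold gram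
  have h : ∑ i, v i * u i = ∑ i, u i * v i := by
    apply Finset.sum_congr rfl
    intro i _
    ring
  rw [h]
  ring

/-- `u, v` span the lattice of `x, y`, with the same Gram determinant. -/
def Good (x y u v : ι → ℤ) : Prop :=
  gram u v = gram x y ∧ ∃ a b c d : ℤ, (∀ i, x i = a * u i + b * v i) ∧
    (∀ i, y i = c * u i + d * v i)

lemma good_refl (x y : ι → ℤ) : Good x y x y :=
  ⟨rfl, 1, 0, 0, 1, fun i => by ring, fun i => by ring⟩

lemma good_swap {x y u v : ι → ℤ} (h : Good x y u v) : Good x y v u := by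
  obtain ⟨hg, a, b, c, d, h1, h2⟩ := h
  refine ⟨by rw [gram_comm]; exact hg, b, a, d, c, fun i => ?_, fun i => ?_⟩
  · rw [h1 i]; ring
  · rw [h2 i]; ring

lemma good_sub {x y u v : ι → ℤ} (h : Good x y u v) (s : ℤ) :
    Good x y u (fun i => v i - s * u i) := by
  obtain ⟨hg, a, b, c, d, h1, h2⟩ := h
  refine ⟨by rw [gram_sub]; exact hg, a + b * s, b, c + d * s, d, fun i => ?_, fun i => ?_⟩
  · rw [h1 i]; ring
  · rw [h2 i]; ring

lemma exists_min (x y : ι → ℤ) :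
    ∃ u v : ι → ℤ, Good x y u v ∧ (∑ i, u i ^ 2 ≤ ∑ i, v i ^ 2) ∧
      ∀ u' v' : ι → ℤ, Good x y u' v' →
        (∑ i, u i ^ 2) + (∑ i, v i ^ 2) ≤ (∑ i, u' i ^ 2) + (∑ i, v' i ^ 2) := by
  classical
  have hne : ∃ n : ℕ, ∃ u v : ι → ℤ, Good x y u v ∧
      (∑ i, u i ^ 2) + (∑ i, v i ^ 2) = (n : ℤ) := by
    have h0 : (0 : ℤ) ≤ (∑ i, x i ^ 2) + (∑ i, y i ^ 2) :=
      add_nonneg (Finset.sum_nonneg fun i _ => sq_nonneg _)
        (Finset.sum_nonneg fun i _ => sq_nonneg _)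
    exact ⟨((∑ i, x i ^ 2) + (∑ i, y i ^ 2)).toNat, x, y, good_refl x y,
      (Int.toNat_of_nonneg h0).symm⟩
  obtain ⟨u, v, hG, hn⟩ := Nat.find_spec hne
  have hmin : ∀ u' v' : ι → ℤ, Good x y u' v' →
      (∑ i, u i ^ 2) + (∑ i, v i ^ 2) ≤ (∑ i, u' i ^ 2) + (∑ i, v' i ^ 2) := by
    intro u' v' hG'
    have h0 : (0 : ℤ) ≤ (∑ i, u' i ^ 2) + (∑ i, v' i ^ 2) :=
      add_nonneg (Finset.sum_nonneg fun i _ => sq_nonneg _)
        (Finset.sum_nonneg fun i _ => sq_nonneg _)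
    have h1 : Nat.find hne ≤ ((∑ i, u' i ^ 2) + (∑ i, v' i ^ 2)).toNat :=
      Nat.find_min' hne ⟨u', v', hG', (Int.toNat_of_nonneg h0).symm⟩
    have h2 := Int.toNat_of_nonneg h0
    rw [hn, ← h2]
    exact_mod_cast h1
  rcases le_total (∑ i, u i ^ 2) (∑ i, v i ^ 2) with h | h
  · exact ⟨u, v, hG, h, hmin⟩
  · refine ⟨v, u, good_swap hG, h, fun u' v' hG' => ?_⟩
    have := hmin u' v' hG'
    linarith

end RDUM

open RDUM in
theorem specRDU : SpecRDU := by
  intro ι _ x y hxy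
  obtain ⟨u, v, ⟨hg, a, b, c, d, h1, h2⟩, hle, hmin⟩ := exists_min x y
  have hG : Good x y u v := ⟨hg, a, b, c, d, h1, h2⟩
  have hp : 2 * (∑ i, u i * v i) ≤ ∑ i, u i ^ 2 := by
    have := hmin _ _ (good_sub hG 1)
    rw [sum_sq_sub] at this
    linarith
  have hm : -(2 * (∑ i, u i * v i)) ≤ ∑ i, u i ^ 2 := by
    have := hmin _ _ (good_sub hG (-1))
    rw [sum_sq_sub] at this
    linarith
  have hu0 : (0 : ℤ) ≤ ∑ i, u i ^ 2 := Finset.sum_nonneg fun i _ => sq_nonneg _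
  refine ⟨u, v, ?_, ?_, ?_, ?_⟩
  · intro hu
    apply hxy
    rw [← hg, hu]
    simp [gram]
  · intro hv
    apply hxy
    rw [← hg, hv]
    simp [gram]
  · rw [← hg]
    unfold gram
    set U := ∑ i, u i ^ 2 with hU
    set W := ∑ i, v i ^ 2 with hW
    set P := ∑ i, u i * v i with hP
    nlinarith [mul_nonneg hu0 (sub_nonneg.mpr hle), mul_nonneg (sub_nonneg.mpr hp) (by linarith : (0:ℤ) ≤ U + 2 * P)]
  · intro e he1 he2
    constructor
    · have : ∑ i, e i * x i = a * (∑ i, e i * u i) + b * (∑ i, e i * v i) := by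
        rw [Finset.mul_sum, Finset.mul_sum, ← Finset.sum_add_distrib]
        apply Finset.sum_congr rfl
        intro i _
        rw [h1 i]
        ring
      rw [this, he1, he2]
      ring
    · have : ∑ i, e i * y i = c * (∑ i, e i * u i) + d * (∑ i, e i * v i) := by
        rw [Finset.mul_sum, Finset.mul_sum, ← Finset.sum_add_distrib]
        apply Finset.sum_congr rfl
        intro i _
        rw [h2 i]
        ring
      rw [this, he1, he2]
      ring

end Pool.Agent.Lib.MP_715eb0_an.NC
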