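import Pool.Agent.Lib.MP_715eb0_an.NC.Spec

/-!
# Module VAA: one application of the Subspace theorem
-/

set_option autoImplicit false

open NumberField Pool.Agent.Lib.MP_d0e829_nt

namespace Pool.Agent.Lib.MP_715eb0_an.NC

namespace VAAM

open scoped Classical

/-! ### places of `ℚ` -/

theorem absV_inl (w : InfinitePlace ℚ) (a : ℚ) :
    absV (Sum.inl w : Place ℚ) a = |(a : ℝ)| := by
  have h1 : weight (Sum.inl w : Place ℚ) = 1 := by
    have : w.mult = 1 := by
      have h : w = Rat.infinitePlace := Subsingleton.elim _ _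
      rw [h]
      exact InfinitePlace.mult_isReal ⟨_, Rat.isReal_infinitePlace⟩
    show ((w.mult : ℕ) : ℝ) / Module.finrank ℚ ℚ = 1
    rw [this, Module.finrank_self]
    norm_num
  unfold absV
  rw [h1, Real.rpow_one]
  show w a = _
  rw [Rat.infinitePlace_apply]
  exact Rat.cast_abs a

theorem fin_nat (w : FinitePlace ℚ) (b : ℕ) : absV (Sum.inr w : Place ℚ) (b : ℚ) ≤ 1 := by
  have h := FinitePlace.norm_le_one w.maximalIdeal (b : 𝓞 ℚ) (K := ℚ)
  rw [FinitePlace.norm_embedding_eq] at h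
  have h2 : w (b : ℚ) ≤ 1 := by simpa using h
  exact Real.rpow_le_one (rawAbs_nonneg (Sum.inr w : Place ℚ) (b : ℚ)) h2 (weight_pos _).le

theorem fin_int (w : FinitePlace ℚ) (b : ℤ) : absV (Sum.inr w : Place ℚ) (b : ℚ) ≤ 1 := by
  rcases Int.natAbs_eq b with h | h
  · rw [h]
    have := fin_nat w b.natAbs
    simpa using this
  · rw [h, Int.cast_neg, absV_neg]
    have := fin_nat w b.natAbs
    simpa using this

/-- the infinite place -/
noncomputable def inf : Place ℚ := Sum.inl Rat.infinitePlace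

theorem absV_inf (a : ℚ) : absV inf a = |(a : ℝ)| := absV_inl _ _

theorem int_le_one (w : Place ℚ) (hw : w ≠ inf) (b : ℤ) : absV w (b : ℚ) ≤ 1 := by
  cases w with
  | inl w => exact absurd (congrArg Sum.inl (Subsingleton.elim _ _)) hw
  | inr w => exact fin_int w b

theorem sw_fin (w : Place ℚ) (hw : w ≠ inf) : SS.sw w = 0 := by
  cases w with
  | inl w => exact absurd (congrArg Sum.inl (Subsingleton.elim _ _)) hw
  | inr w => rfl

/-! ### sums over places -/

theorem finsum_le_sum (f : Place ℚ → ℝ) (hf : (Function.support f).Finite) (S : Finset (Place ℚ))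
    (h : ∀ w ∉ S, f w ≤ 0) : ∑ᶠ w, f w ≤ ∑ w ∈ S, f w := by
  have hs : (Function.support fun w => if w ∈ S then f w else 0) ⊆ (S : Set (Place ℚ)) := by
    intro w hw
    by_contra hc
    exact hw (if_neg hc)
  have h1 : ∑ᶠ w, f w ≤ ∑ᶠ w, (if w ∈ S then f w else 0) := by
    apply SS.finsum_mono hf (S.finite_toSet.subset hs)
    intro w
    by_cases hw : w ∈ S
    · simp [hw]
    · simp only [hw, if_false]
      exact h w hw
  refine h1.trans ?_
  rw [finsum_eq_sum_of_support_subset _ hs]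
  refine (Finset.sum_congr rfl fun w hw => ?_).le
  exact if_pos hw

/-- an integer is not small at a place -/
theorem int_lower (w : Place ℚ) (c : ℤ) (hc : c ≠ 0) (B : ℝ) (hB : |(c : ℝ)| ≤ B) :
    - Real.log B ≤ Real.log (absV w (c : ℚ)) := by
  have hcQ : (c : ℚ) ≠ 0 := by exact_mod_cast hc
  have h1 : (1 : ℝ) ≤ |(c : ℝ)| := by
    have := Int.one_le_abs hc
    exact_mod_cast this
  have hlog : Real.log |(c : ℝ)| ≤ Real.log B := Real.log_le_log (by linarith) hB
  have hlog0 : 0 ≤ Real.log |(c : ℝ)| := Real.log_nonneg h1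
  have hinf : absV inf (c : ℚ) = |(c : ℝ)| := by rw [absV_inf]; norm_cast
  by_cases hw : w = inf
  · rw [hw, hinf]; linarith
  · have h := finsum_le_sum (fun w => Real.log (absV w (c : ℚ))) (support_log_absV_finite hcQ)
      {w, inf} (by
        intro w' hw'
        simp only [Finset.mem_insert, Finset.mem_singleton, not_or] at hw'
        exact Real.log_nonpos (absV_nonneg _ _) (int_le_one w' hw'.2 c))
    rw [product_formula hcQ, Finset.sum_pair hw, hinf] at h
    linarith

/-! ### the matrices -/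

/-- the identity with the row `j` replaced by ones -/
def M (n : ℕ) (j : Fin (n + 1)) : Matrix (Fin n) (Fin n) ℚ :=
  fun i k => if i.castSucc = j then 1 else if i = k then 1 else 0

theorem M_mulVec (n : ℕ) (j : Fin (n + 1)) (x : Fin n → ℚ) (i : Fin n) :
    (M n j).mulVec x i = if i.castSucc = j then ∑ k, x k else x i := by
  show ∑ k, (if i.castSucc = j then (1 : ℚ) else if i = k then 1 else 0) * x k = _
  by_cases h : i.castSucc = j
  · simp [h]
  · simp [h]

theorem M_det (n : ℕ) (j : Fin (n + 1)) : (M n j).det ≠ 0 := by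
  intro h
  obtain ⟨x, hx, h0⟩ := Matrix.exists_mulVec_eq_zero_iff.2 h
  apply hx
  have h1 : ∀ i : Fin n, i.castSucc ≠ j → x i = 0 := by
    intro i hi
    have := congrFun h0 i
    rw [M_mulVec, if_neg hi] at this
    exact this
  funext i
  by_cases hi : i.castSucc = j
  · have h2 := congrFun h0 i
    rw [M_mulVec, if_pos hi, Finset.sum_eq_single i] at h2
    · exact h2
    · intro k _ hk
      apply h1
      intro h3
      exact hk (Fin.castSucc_injective n (h3.trans hi.symm))
    · intro h3; exact absurd (Finset.mem_univ _) h3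
  · exact h1 i hi

theorem sum_rows (n : ℕ) (j : Fin (n + 1)) (f : Fin (n + 1) → ℝ) :
    ∑ i : Fin n, (if i.castSucc = j then f (Fin.last n) else f i.castSucc) =
      ∑ k, f k - f j := by
  rw [Fin.sum_univ_castSucc]
  rcases Fin.eq_castSucc_or_eq_last j with ⟨j', rfl⟩ | rfl
  · have h : ∀ i : Fin n, (if i.castSucc = j'.castSucc then f (Fin.last n) else f i.castSucc) =
        f i.castSucc + (if i = j' then f (Fin.last n) - f j'.castSucc else 0) := by
      intro i
      by_cases hi : i = j'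
      · subst hi; simp
      · have : i.castSucc ≠ j'.castSucc := fun h => hi (Fin.castSucc_injective n h)
        simp [hi]
    rw [Finset.sum_congr rfl fun i _ => h i, Finset.sum_add_distrib, Finset.sum_ite_eq']
    simp only [Finset.mem_univ, if_true]
    ring
  · have h : ∀ i : Fin n, (if i.castSucc = Fin.last n then f (Fin.last n) else f i.castSucc) =
        f i.castSucc := fun i => if_neg (Fin.castSucc_lt_last i).ne
    rw [Finset.sum_congr rfl fun i _ => h i]
    ring

/-! ### integral relations of a proper subspace -/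

theorem exists_rel (n : ℕ) (T : Submodule ℚ (Fin n → ℚ)) (hT : T ≠ ⊤) :
    ∃ b : Fin n → ℤ, b ≠ 0 ∧ ∀ x ∈ T, ∑ i, (b i : ℚ) * x i = 0 := by
  obtain ⟨f, hf, hTf⟩ := Submodule.exists_le_ker_of_lt_top T (lt_top_iff_ne_top.2 hT)
  set β : Fin n → ℚ := fun i => f (Pi.single i 1) with hβ
  have hfx : ∀ x : Fin n → ℚ, f x = ∑ i, β i * x i := by
    intro x
    have h1 : x = ∑ i, x i • (Pi.single i (1 : ℚ) : Fin n → ℚ) := by
      funext k
      simp [Finset.sum_apply, Pi.single_apply]
    conv_lhs => rw [h1]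
    rw [map_sum]
    refine Finset.sum_congr rfl fun i _ => ?_
    rw [map_smul, smul_eq_mul, mul_comm]
  set d : ℕ := ∏ i, (β i).den with hd
  have hd0 : d ≠ 0 := Finset.prod_ne_zero_iff.2 fun i _ => (β i).den_nz
  have hz : ∀ i, ∃ z : ℤ, (z : ℚ) = d * β i := by
    intro i
    obtain ⟨m, hm⟩ : (β i).den ∣ d := Finset.dvd_prod_of_mem _ (Finset.mem_univ i)
    refine ⟨m * (β i).num, ?_⟩
    rw [hm]
    push_cast
    have h1 : ((β i).den : ℚ) * β i = (β i).num := by
      rw [mul_comm]; exact Rat.mul_den_eq_num (β i)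
    rw [← h1]
    ring
  choose b hb using hz
  refine ⟨b, ?_, ?_⟩
  · rintro h0
    apply hf
    apply LinearMap.ext
    intro x
    rw [hfx, LinearMap.zero_apply]
    refine Finset.sum_eq_zero fun i _ => ?_
    have h1 := hb i
    rw [h0, Pi.zero_apply, Int.cast_zero] at h1
    have h2 : β i = 0 := by
      rcases mul_eq_zero.1 h1.symm with h3 | h3
      · exact absurd (by exact_mod_cast h3) hd0
      · exact h3
    rw [h2, zero_mul]
  · intro x hx
    have h1 : f x = 0 := hTf hx
    rw [hfx] at h1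
    calc ∑ i, (b i : ℚ) * x i = ∑ i, d * (β i * x i) :=
          Finset.sum_congr rfl fun i _ => by rw [hb i]; ring
      _ = 0 := by rw [← Finset.mul_sum, h1, mul_zero]

/-! ### Bezout -/

theorem bezout {ι : Type} (s : Finset ι) (v : ι → ℕ) :
    ∃ a : ι → ℤ, ((s.gcd v : ℕ) : ℤ) = ∑ j ∈ s, a j * (v j : ℤ) := by
  induction s using Finset.induction_on with
  | empty => exact ⟨fun _ => 0, by simp⟩
  | insert i s hi ih =>
    obtain ⟨a, ha⟩ := ih
    refine ⟨fun j => if j = i then Nat.gcdA (v i) (s.gcd v) else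
      Nat.gcdB (v i) (s.gcd v) * a j, ?_⟩
    rw [Finset.gcd_insert, Finset.sum_insert hi]
    have h1 : ((gcd (v i) (s.gcd v) : ℕ) : ℤ) =
        (v i : ℤ) * Nat.gcdA (v i) (s.gcd v) + (s.gcd v : ℕ) * Nat.gcdB (v i) (s.gcd v) :=
      Nat.gcd_eq_gcd_ab _ _
    rw [h1]
    beta_reduce
    rw [if_pos rfl]
    have h2 : ∑ j ∈ s, (if j = i then Nat.gcdA (v i) (s.gcd v) else
        Nat.gcdB (v i) (s.gcd v) * a j) * (v j : ℤ) =
        Nat.gcdB (v i) (s.gcd v) * ∑ j ∈ s, a j * (v j : ℤ) := by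
      rw [Finset.mul_sum]
      refine Finset.sum_congr rfl fun j hj => ?_
      rw [if_neg (by rintro rfl; exact hi hj)]
      ring
    rw [h2, ← ha]
    ring

/-! ### the set of places -/

theorem V_pos (p : ℕ × ℕ) : 0 < V p := by unfold V; positivity

theorem six_ne : (6 : ℚ) ≠ 0 := by norm_num

/-- the finite set of places -/
noncomputable def S : Finset (Place ℚ) := (support_log_absV_finite six_ne).toFinset

theorem mem_S (w : Place ℚ) : w ∈ S ↔ Real.log (absV w (6 : ℚ)) ≠ 0 := by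
  unfold S
  rw [Set.Finite.mem_toFinset, Function.mem_support]

theorem inf_mem : inf ∈ S := by
  rw [mem_S, absV_inf]
  have : |((6 : ℚ) : ℝ)| = 6 := by norm_num
  rw [this]
  exact (Real.log_pos (by norm_num)).ne'

theorem absV_pow (w : Place ℚ) (a : ℚ) (k : ℕ) : absV w (a ^ k) = absV w a ^ k := by
  induction k with
  | zero => rw [pow_zero, pow_zero, absV_one]
  | succ k ih => rw [pow_succ, pow_succ, absV_mul, ih]

theorem V_one (w : Place ℚ) (hw : w ∉ S) (p : ℕ × ℕ) : absV w (V p : ℚ) = 1 := by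
  have hwi : w ≠ inf := fun h => hw (h ▸ inf_mem)
  have h6 : Real.log (absV w (6 : ℚ)) = 0 := by
    by_contra h
    exact hw ((mem_S w).2 h)
  have h61 : absV w (6 : ℚ) = 1 :=
    Real.eq_one_of_pos_of_log_eq_zero (absV_pos w six_ne) h6
  have h2 : absV w (2 : ℚ) ≤ 1 := by
    have := int_le_one w hwi 2
    exact_mod_cast this
  have h3 : absV w (3 : ℚ) ≤ 1 := by
    have := int_le_one w hwi 3
    exact_mod_cast this
  have h23 : absV w (2 : ℚ) * absV w (3 : ℚ) = 1 := by
    rw [← absV_mul, ← h61]; norm_num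
  have p2 := absV_pos w (a := (2 : ℚ)) (by norm_num)
  have p3 := absV_pos w (a := (3 : ℚ)) (by norm_num)
  have e2 : absV w (2 : ℚ) = 1 := by nlinarith
  have e3 : absV w (3 : ℚ) = 1 := by nlinarith
  unfold V
  push_cast
  rw [absV_mul, absV_pow, absV_pow, e2, e3, one_pow, one_pow, one_mul]

/-! ### the main computation -/

theorem sum_log_V (p : ℕ × ℕ) : ∑ w ∈ S, Real.log (absV w (V p : ℚ)) = 0 := by
  have hV : (V p : ℚ) ≠ 0 := by exact_mod_cast (V_pos p).ne'
  rw [← product_formula hV, finsum_eq_sum_of_support_subset]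
  intro w hw
  by_contra hc
  apply hw
  show Real.log (absV w (V p : ℚ)) = 0
  rw [V_one w hc, Real.log_one]

theorem sum_log_c (c : ℤ) (hc : c ≠ 0) (B : ℝ) (hB : |(c : ℝ)| ≤ B) :
    ∑ w ∈ S, Real.log (absV w (c : ℚ)) ≤ Real.log B := by
  have h1 : (0 : ℝ) < |(c : ℝ)| := by
    rw [abs_pos]; exact_mod_cast hc
  rw [← Finset.add_sum_erase S _ inf_mem]
  have h2 : Real.log (absV inf (c : ℚ)) ≤ Real.log B := by
    have : absV inf (c : ℚ) = |(c : ℝ)| := by rw [absV_inf]; norm_cast
    rw [this]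
    exact Real.log_le_log h1 hB
  have h3 : ∑ w ∈ S.erase inf, Real.log (absV w (c : ℚ)) ≤ 0 :=
    Finset.sum_nonpos fun w hw =>
      Real.log_nonpos (absV_nonneg _ _) (int_le_one w (Finset.ne_of_mem_erase hw) c)
  linarith

theorem sum_nrm_V {m : ℕ} (p : Fin (m + 1) → ℕ × ℕ) :
    hgt Finset.univ (fun j => V (p j)) ≤
      ∑ w ∈ S, Real.log (SS.nrm w (fun j => (V (p j) : ℚ))) := by
  obtain ⟨a, ha⟩ := bezout Finset.univ (fun j => V (p j))
  set g : ℕ := Finset.univ.gcd (fun j => V (p j)) with hg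
  have hg0 : g ≠ 0 := by
    intro h
    have := (Finset.gcd_eq_zero_iff.1 h) 0 (Finset.mem_univ _)
    exact (V_pos (p 0)).ne' this
  have hgQ : ((g : ℤ) : ℚ) ≠ 0 := by exact_mod_cast hg0
  have hv : (fun j => (V (p j) : ℚ)) ≠ 0 := by
    intro h
    have h0 : (V (p 0) : ℚ) = 0 := congrFun h 0
    exact (V_pos (p 0)).ne' (by exact_mod_cast h0)
  rw [← Finset.add_sum_erase S _ inf_mem]
  -- the infinite place
  have h1 : Real.log ((Finset.univ.sup (fun j => V (p j)) : ℕ) : ℝ) ≤
      Real.log (SS.nrm inf (fun j => (V (p j) : ℚ))) := by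
    obtain ⟨j, -, hj⟩ := Finset.exists_mem_eq_sup (Finset.univ : Finset (Fin (m + 1)))
      Finset.univ_nonempty (fun j => V (p j))
    rw [hj]
    have h2 : absV inf ((V (p j) : ℕ) : ℚ) = (V (p j) : ℝ) := by
      rw [absV_inf]
      norm_cast
    apply Real.log_le_log (by exact_mod_cast V_pos _)
    rw [← h2]
    exact SS.absV_le_nrm inf (fun j => (V (p j) : ℚ)) j
  -- the finite places
  have h2 : ∀ w ∈ S.erase inf, Real.log (absV w ((g : ℤ) : ℚ)) ≤
      Real.log (SS.nrm w (fun j => (V (p j) : ℚ))) := by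
    intro w hw
    have hwi := Finset.ne_of_mem_erase hw
    apply Real.log_le_log (absV_pos w hgQ)
    have h3 : ((g : ℤ) : ℚ) = ∑ j, (a j : ℚ) * (V (p j) : ℚ) := by
      rw [ha]; push_cast; rfl
    rw [h3]
    have h4 := SS.absV_sum_le w Finset.univ (fun j => (a j : ℚ) * (V (p j) : ℚ))
      (SS.nrm_nonneg w (fun j => (V (p j) : ℚ))) (by
        intro j _
        show absV w ((a j : ℚ) * (V (p j) : ℚ)) ≤ _
        rw [absV_mul]
        calc absV w (a j : ℚ) * absV w (V (p j) : ℚ) ≤ 1 * absV w (V (p j) : ℚ) :=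
              mul_le_mul_of_nonneg_right (int_le_one w hwi (a j)) (absV_nonneg _ _)
          _ ≤ _ := by
              rw [one_mul]
              exact SS.absV_le_nrm w (fun j => (V (p j) : ℚ)) j)
    rw [sw_fin w hwi, Real.rpow_zero, one_mul] at h4
    exact h4
  have h3 : (0 : ℝ) ≤ ∑ w ∈ S, Real.log (absV w ((g : ℤ) : ℚ)) := by
    rw [← product_formula hgQ]
    apply finsum_le_sum _ (support_log_absV_finite hgQ)
    intro w hw
    exact Real.log_nonpos (absV_nonneg _ _) (int_le_one w (fun h => hw (h ▸ inf_mem)) g)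
  rw [← Finset.add_sum_erase S _ inf_mem] at h3
  have h4 : absV inf ((g : ℤ) : ℚ) = (g : ℝ) := by
    rw [absV_inf]
    norm_cast
  rw [h4] at h3
  have h5 := Finset.sum_le_sum h2
  unfold hgt
  linarith

theorem core (n : ℕ) (hn : 2 ≤ n) (ε : ℝ) (hε : 0 < ε) (hε1 : ε < 1)
    (p : Fin (n + 1) → ℕ × ℕ) (c : Fin (n + 1) → ℤ) (B : ℝ) (hc : ∀ j, c j ≠ 0)
    (hB : ∀ j, |(c j : ℝ)| ≤ B) (hsum : ∑ j, c j * (V (p j) : ℤ) = 0) (C : ℝ)
    (Y : Fin (n + 1) → ℚ) (hYd : ∀ j, Y j = (c j : ℚ) * (V (p j) : ℚ))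
    (g : Place ℚ → Fin (n + 1)) (hg : ∀ w, ∀ j, absV w (Y j) ≤ absV w (Y (g w)))
    (hineq : ∑ w ∈ S, ∑ i : Fin n, (Real.log (SS.nrm w (fun i : Fin n => Y i.castSucc)) -
      Real.log (absV w ((M n (g w)).mulVec (fun i : Fin n => Y i.castSucc) i))) ≤
      (n + ε) * SS.ht (fun i : Fin n => Y i.castSucc) + C) :
    (1 - ε) * hgt Finset.univ (fun j => V (p j)) ≤ (n + 1 + S.card : ℝ) * Real.log B + C := by
  set X : Fin n → ℚ := fun i => Y i.castSucc with hXd
  have hYint : ∀ j, Y j = ((c j * (V (p j) : ℤ) : ℤ) : ℚ) := by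
    intro j; rw [hYd]; push_cast; rfl
  have hY : ∀ j, Y j ≠ 0 := by
    intro j
    rw [hYint]
    have := mul_ne_zero (hc j) (show ((V (p j) : ℕ) : ℤ) ≠ 0 by exact_mod_cast (V_pos (p j)).ne')
    exact_mod_cast this
  have hYsum : ∑ j, Y j = 0 := by
    rw [Finset.sum_congr rfl fun j _ => hYint j, ← Int.cast_sum, hsum, Int.cast_zero]
  have hXsum : ∑ i, X i = - Y (Fin.last n) := by
    rw [Fin.sum_univ_castSucc] at hYsum
    exact eq_neg_of_add_eq_zero_left hYsum
  have hX0 : X ≠ 0 := by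
    intro h
    have := congrFun h ⟨0, by omega⟩
    exact hY _ this
  have hB1 : 1 ≤ B := by
    have h1 := Int.one_le_abs (hc 0)
    have h2 : (1 : ℝ) ≤ |(c 0 : ℝ)| := by exact_mod_cast h1
    exact h2.trans (hB 0)
  have hlogB : 0 ≤ Real.log B := Real.log_nonneg hB1
  have hrow : ∀ w ∈ S, ∑ i : Fin n, (Real.log (SS.nrm w X) -
      Real.log (absV w ((M n (g w)).mulVec X i))) = n * Real.log (SS.nrm w X) -
        (∑ k, Real.log (absV w (Y k)) - Real.log (absV w (Y (g w)))) := by
    intro w _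
    rw [Finset.sum_sub_distrib, Finset.sum_const, Finset.card_univ, Fintype.card_fin,
      nsmul_eq_mul, ← sum_rows n (g w) (fun k => Real.log (absV w (Y k)))]
    congr 1
    refine Finset.sum_congr rfl fun i _ => ?_
    rw [M_mulVec]
    by_cases hi : i.castSucc = g w
    · rw [if_pos hi, if_pos hi, hXsum, absV_neg]
    · rw [if_neg hi, if_neg hi]
  rw [Finset.sum_congr rfl hrow, Finset.sum_sub_distrib, Finset.sum_sub_distrib,
    ← Finset.mul_sum] at hineq
  set A := ∑ w ∈ S, Real.log (SS.nrm w X) with hA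
  set H := ∑ w ∈ S, Real.log (absV w (Y (g w))) with hH
  have e1 : SS.ht X ≤ A := by
    apply finsum_le_sum _ (SS.support_log_nrm_finite hX0)
    intro w hw
    apply Real.log_nonpos (SS.nrm_nonneg w X)
    apply SS.nrm_le w X zero_le_one
    intro i
    show absV w (Y i.castSucc) ≤ 1
    rw [hYint]
    exact int_le_one w (fun h => hw (h ▸ inf_mem)) _
  have e2 : A ≤ H := by
    apply Finset.sum_le_sum
    intro w _
    apply Real.log_le_log (SS.nrm_pos w hX0)
    apply SS.nrm_le w X (absV_nonneg _ _)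
    intro i
    exact hg w i.castSucc
  have e3 : ∑ w ∈ S, ∑ k, Real.log (absV w (Y k)) ≤ (n + 1) * Real.log B := by
    rw [Finset.sum_comm]
    have h1 : ∀ k ∈ (Finset.univ : Finset (Fin (n + 1))),
        ∑ w ∈ S, Real.log (absV w (Y k)) ≤ Real.log B := by
      intro k _
      have h2 : ∀ w ∈ S, Real.log (absV w (Y k)) =
          Real.log (absV w (c k : ℚ)) + Real.log (absV w (V (p k) : ℚ)) := by
        intro w _
        have hcQ : (c k : ℚ) ≠ 0 := by exact_mod_cast hc k
        have hVQ : (V (p k) : ℚ) ≠ 0 := by exact_mod_cast (V_pos (p k)).ne'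
        rw [hYd, absV_mul, Real.log_mul (absV_pos w hcQ).ne' (absV_pos w hVQ).ne']
      rw [Finset.sum_congr rfl h2, Finset.sum_add_distrib, sum_log_V, add_zero]
      exact sum_log_c (c k) (hc k) B (hB k)
    refine (Finset.sum_le_sum h1).trans ?_
    rw [Finset.sum_const, Finset.card_univ, Fintype.card_fin, nsmul_eq_mul]
    push_cast
    exact le_refl _
  have e4 : hgt Finset.univ (fun j => V (p j)) - S.card * Real.log B ≤ H := by
    have h1 : ∀ w ∈ S, Real.log (SS.nrm w (fun j => (V (p j) : ℚ))) - Real.log B ≤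
        Real.log (absV w (Y (g w))) := by
      intro w _
      obtain ⟨j, hj⟩ : ∃ j, absV w (V (p j) : ℚ) = SS.nrm w (fun j => (V (p j) : ℚ)) :=
        exists_eq_ciSup_of_finite (f := fun j => absV w (V (p j) : ℚ))
      have hcQ : (c j : ℚ) ≠ 0 := by exact_mod_cast hc j
      have hVQ : (V (p j) : ℚ) ≠ 0 := by exact_mod_cast (V_pos (p j)).ne'
      have h2 : Real.log (absV w (Y j)) ≤ Real.log (absV w (Y (g w))) :=
        Real.log_le_log (absV_pos w (hY j)) (hg w j)
      rw [hYd j, absV_mul, Real.log_mul (absV_pos w hcQ).ne' (absV_pos w hVQ).ne', hj] at h2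
      have h3 := int_lower w (c j) (hc j) B (hB j)
      linarith
    have h2 := Finset.sum_le_sum h1
    rw [Finset.sum_sub_distrib, Finset.sum_const, nsmul_eq_mul] at h2
    have h3 := sum_nrm_V p
    linarith
  have hn0 : (0 : ℝ) ≤ n := Nat.cast_nonneg n
  have hcard : (0 : ℝ) ≤ S.card := Nat.cast_nonneg _
  have e5 : (n + ε) * SS.ht X ≤ (n + ε) * A := mul_le_mul_of_nonneg_left e1 (by linarith)
  have e6 : (1 - ε) * H ≤ (n + 1) * Real.log B + C := by nlinarith
  have e7 : (1 - ε) * (hgt Finset.univ (fun j => V (p j)) - S.card * Real.log B) ≤ (1 - ε) * H :=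
    mul_le_mul_of_nonneg_left e4 (by linarith)
  have e8 : 0 ≤ ε * (S.card * Real.log B) := mul_nonneg hε.le (mul_nonneg hcard hlogB)
  nlinarith

end VAAM

open VAAM in
theorem specVAA (hSUB : SS.SpecSUB) : SpecVAA := by
  classical
  refine ⟨S.card, fun n hn ε hε hε1 => ?_⟩
  have key := fun g : ({w : Place ℚ // w ∈ S} → Fin (n + 1)) =>
    hSUB ℚ n (by omega) S (fun w => if h : w ∈ S then M n (g ⟨w, h⟩) else 1) (by
      intro w hw
      rw [dif_pos hw]
      exact M_det n _) ε hε
  choose Cg Hg hfin hne hmain using key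
  have hrel := exists_rel n
  choose rel hrel0 hrel1 using hrel
  let bb : Submodule ℚ (Fin n → ℚ) → Fin (n + 1) → ℤ := fun T =>
    if h : T ≠ ⊤ then Fin.snoc (α := fun _ => ℤ) (rel T h) 0 else 0
  have hbb : ∀ T (h : T ≠ ⊤), bb T = Fin.snoc (α := fun _ => ℤ) (rel T h) 0 :=
    fun T h => dif_pos h
  refine ⟨∑ g, |Cg g|, ⋃ g, bb '' Hg g, Set.finite_iUnion fun g => (hfin g).image _, ?_, ?_⟩
  · intro b hb
    obtain ⟨g, T, hT, rfl⟩ := Set.mem_iUnion.1 hb
    rw [hbb T (hne g T hT)]
    refine ⟨?_, Fin.last n, Fin.snoc_last (α := fun _ => ℤ) _ _⟩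
    intro h0
    apply hrel0 T (hne g T hT)
    funext i
    have := congrFun h0 i.castSucc
    rw [Fin.snoc_castSucc (α := fun _ => ℤ)] at this
    exact this
  · intro p c B hc hB hsum
    set Y : Fin (n + 1) → ℚ := fun j => (c j : ℚ) * (V (p j) : ℚ) with hY
    have hmax : ∀ w : Place ℚ, ∃ j, ∀ k, absV w (Y k) ≤ absV w (Y j) :=
      fun w => Finite.exists_max fun k => absV w (Y k)
    choose gm hgm using hmax
    let g0 : {w : Place ℚ // w ∈ S} → Fin (n + 1) := fun w => gm w
    by_cases hex : ∃ T ∈ Hg g0, (fun i : Fin n => Y i.castSucc) ∈ T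
    · right
      obtain ⟨T, hT, hXT⟩ := hex
      refine ⟨bb T, Set.mem_iUnion.2 ⟨g0, T, hT, rfl⟩, ?_⟩
      rw [hbb T (hne g0 T hT), Fin.sum_univ_castSucc]
      have h1 := hrel1 T (hne g0 T hT) _ hXT
      have h2 : ((∑ i : Fin n, rel T (hne g0 T hT) i * c i.castSucc * (V (p i.castSucc) : ℤ) : ℤ) :
          ℚ) = 0 := by
        rw [← h1]
        push_cast
        refine Finset.sum_congr rfl fun i _ => ?_
        rw [hY]
        ring
      have h3 : ∑ i : Fin n, rel T (hne g0 T hT) i * c i.castSucc * (V (p i.castSucc) : ℤ) = 0 := by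
        exact_mod_cast h2
      simp only [Fin.snoc_castSucc (α := fun _ => ℤ), Fin.snoc_last (α := fun _ => ℤ), zero_mul,
        add_zero]
      exact h3
    · left
      push Not at hex
      have hY0 : ∀ j, Y j ≠ 0 := by
        intro j
        have hcQ : (c j : ℚ) ≠ 0 := by exact_mod_cast hc j
        have hVQ : (V (p j) : ℚ) ≠ 0 := by exact_mod_cast (V_pos (p j)).ne'
        exact mul_ne_zero hcQ hVQ
      have hX0 : (fun i : Fin n => Y i.castSucc) ≠ 0 := by
        intro h
        have := congrFun h ⟨0, by omega⟩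
        exact hY0 _ this
      have h1 := hmain g0 _ hX0 hex
      have h2 : Cg g0 ≤ ∑ g, |Cg g| :=
        (le_abs_self _).trans (Finset.single_le_sum (f := fun g => |Cg g|)
          (fun g _ => abs_nonneg _) (Finset.mem_univ g0))
      have h3 := core n hn ε hε hε1 p c B hc hB hsum (Cg g0) Y (fun j => rfl) gm hgm (by
        refine le_trans (le_of_eq ?_) h1
        refine Finset.sum_congr rfl fun w hw => ?_
        refine Finset.sum_congr rfl fun i _ => ?_
        rw [dif_pos hw])
      linarith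

end Pool.Agent.Lib.MP_715eb0_an.NC
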