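import Pool.Agent.Lib.MP_715eb0_an.NC.Spec

/-!
# Module VAN: relations with small coefficients contain a subset of small height
-/

set_option autoImplicit false

open Pool.Agent.Lib.MP_d0e829_nt

namespace Pool.Agent.Lib.MP_715eb0_an.NC

namespace VANM

lemma V_pos (p : ℕ × ℕ) : 0 < V p := by
  unfold V
  positivity

lemma exists_bound {m : ℕ} {F : Set (Fin m → ℤ)} (hF : F.Finite) :
    ∃ b₀ : ℝ, 1 ≤ b₀ ∧ ∀ b ∈ F, ∀ i, |(b i : ℝ)| ≤ b₀ := by
  classical
  refine ⟨1 + ∑ b ∈ hF.toFinset, ∑ i, |(b i : ℝ)|, ?_, ?_⟩
  · have : 0 ≤ ∑ b ∈ hF.toFinset, ∑ i, |(b i : ℝ)| :=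
      Finset.sum_nonneg fun _ _ => Finset.sum_nonneg fun _ _ => abs_nonneg _
    linarith
  · intro b hb i
    have h1 : |(b i : ℝ)| ≤ ∑ i, |(b i : ℝ)| :=
      Finset.single_le_sum (f := fun i => |(b i : ℝ)|) (fun _ _ => abs_nonneg _)
        (Finset.mem_univ i)
    have h2 : ∑ i, |(b i : ℝ)| ≤ ∑ b ∈ hF.toFinset, ∑ i, |(b i : ℝ)| :=
      Finset.single_le_sum (f := fun b : Fin m → ℤ => ∑ i, |(b i : ℝ)|)
        (fun _ _ => Finset.sum_nonneg fun _ _ => abs_nonneg _) (hF.mem_toFinset.2 hb)
    linarith

lemma nat_pair {x y a b : ℕ} (hx : 0 < x) (ha : a ≠ 0) (hb : b ≠ 0)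
    (h : a * x = b * y) : max x y ≤ Nat.gcd x y * max a b := by
  obtain ⟨g, x', y', hg, hco, rfl, rfl⟩ := Nat.exists_coprime' (m := x) (n := y)
    (Nat.gcd_pos_of_pos_left _ hx)
  rw [Nat.gcd_mul_right, hco.gcd_eq_one, one_mul]
  have h1 : a * x' = b * y' := by
    have : (a * x') * g = (b * y') * g := by
      calc (a * x') * g = a * (x' * g) := by ring
        _ = b * (y' * g) := h
        _ = (b * y') * g := by ring
    exact Nat.eq_of_mul_eq_mul_right hg this
  have h2 : x' ∣ b := hco.dvd_of_dvd_mul_right (h1 ▸ Dvd.intro_left _ rfl)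
  have h3 : y' ∣ a := by
    have : y' ∣ a * x' := h1.symm ▸ Dvd.intro_left _ rfl
    exact hco.symm.dvd_of_dvd_mul_right this
  have h4 := Nat.le_of_dvd (Nat.pos_of_ne_zero hb) h2
  have h5 := Nat.le_of_dvd (Nat.pos_of_ne_zero ha) h3
  apply max_le
  · rw [mul_comm g]
    exact Nat.mul_le_mul_right _ (h4.trans (le_max_right _ _))
  · rw [mul_comm g]
    exact Nat.mul_le_mul_right _ (h5.trans (le_max_left _ _))

lemma hgt_pair {N : ℕ} {i j : Fin N} (v : Fin N → ℕ) (hv : ∀ k, 0 < v k)
    (a b : ℤ) (ha : a ≠ 0) (hb : b ≠ 0) (h : a * (v i : ℤ) + b * (v j : ℤ) = 0) (B : ℝ)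
    (haB : |(a : ℝ)| ≤ B) (hbB : |(b : ℝ)| ≤ B) : hgt {i, j} v ≤ Real.log B := by
  have h1 : a.natAbs * v i = b.natAbs * v j := by
    have h2 : a * (v i : ℤ) = -(b * (v j : ℤ)) := by linarith
    have h3 := congrArg Int.natAbs h2
    rwa [Int.natAbs_neg, Int.natAbs_mul, Int.natAbs_mul, Int.natAbs_natCast,
      Int.natAbs_natCast] at h3
  have h2 := nat_pair (hv i) (Int.natAbs_ne_zero.2 ha) (Int.natAbs_ne_zero.2 hb) h1
  have hg : 0 < Nat.gcd (v i) (v j) := Nat.gcd_pos_of_pos_left _ (hv i)
  have e1 : ({i, j} : Finset (Fin N)).sup v = max (v i) (v j) := by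
    rw [Finset.sup_insert, Finset.sup_singleton]
  have e2 : ({i, j} : Finset (Fin N)).gcd v = Nat.gcd (v i) (v j) := by
    rw [Finset.gcd_insert, Finset.gcd_singleton, normalize_eq]
    rfl
  unfold hgt
  rw [e1, e2]
  have hB : 0 < B := lt_of_lt_of_le (abs_pos.2 (Int.cast_ne_zero.2 ha)) haB
  have h3 : ((max (v i) (v j) : ℕ) : ℝ) ≤ (Nat.gcd (v i) (v j) : ℝ) * B := by
    have h2' : ((max (v i) (v j) : ℕ) : ℝ) ≤
        ((Nat.gcd (v i) (v j) * max a.natAbs b.natAbs : ℕ) : ℝ) := Nat.cast_le.2 h2
    refine h2'.trans ?_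
    rw [Nat.cast_mul]
    refine mul_le_mul_of_nonneg_left ?_ (Nat.cast_nonneg _)
    rw [Nat.cast_max, Nat.cast_natAbs, Nat.cast_natAbs, Int.cast_abs, Int.cast_abs]
    exact max_le haB hbB
  have h4 : (0 : ℝ) < ((max (v i) (v j) : ℕ) : ℝ) := by
    exact_mod_cast lt_of_lt_of_le (hv i) (le_max_left _ _)
  have h5 := Real.log_le_log h4 h3
  rw [Real.log_mul (by exact_mod_cast hg.ne') hB.ne'] at h5
  linarith

lemma hgt_image {N m : ℕ} (e : Fin m → Fin N) (v : Fin N → ℕ) :
    hgt (Finset.univ.image e) v = hgt Finset.univ (fun i => v (e i)) := by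
  unfold hgt
  rw [Finset.sup_image, Finset.gcd_image]
  rfl

end VANM

open VANM

theorem specVAN (hVAA : SpecVAA) : SpecVAN := by
  classical
  obtain ⟨κ, hκ⟩ := hVAA
  refine ⟨κ, ?_⟩
  intro N δ hδ hδ1
  have key : ∀ k : ℕ, ∃ h₀ : ℝ, 0 ≤ h₀ ∧
      ∀ (p : Fin N → ℕ × ℕ) (c : Fin N → ℤ) (B : ℝ),
        (Finset.univ.filter fun j => c j ≠ 0).card ≤ k → 1 ≤ B → c ≠ 0 →
        (∀ j, |(c j : ℝ)| ≤ B) → ∑ j, c j * (V (p j) : ℤ) = 0 →
        ∃ I : Finset (Fin N), 2 ≤ I.card ∧ (∀ j ∈ I, c j ≠ 0) ∧
          (1 - δ) * hgt I (fun j => V (p j)) ≤ (I.card + κ : ℝ) * Real.log B + h₀ := by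
    intro k
    induction k with
    | zero =>
      refine ⟨0, le_rfl, ?_⟩
      intro p c B hk _ hc _ _
      exfalso
      apply hc
      funext j
      by_contra hj
      have : j ∈ Finset.univ.filter fun j => c j ≠ 0 := by simpa using hj
      have := Finset.card_pos.2 ⟨j, this⟩
      omega
    | succ k ih =>
      obtain ⟨h', hh', ih⟩ := ih
      -- the bound of VAA
      obtain ⟨C, F, hF, hFb, hV⟩ : ∃ (C : ℝ) (F : Set (Fin (k + 1) → ℤ)), F.Finite ∧
          (∀ b ∈ F, b ≠ 0 ∧ ∃ j, b j = 0) ∧ (2 ≤ k →
            ∀ (p : Fin (k + 1) → ℕ × ℕ) (c : Fin (k + 1) → ℤ) (B : ℝ), (∀ j, c j ≠ 0) →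
            (∀ j, |(c j : ℝ)| ≤ B) → ∑ j, c j * (V (p j) : ℤ) = 0 →
            (1 - δ) * hgt Finset.univ (fun j => V (p j)) ≤ (k + 1 + κ : ℝ) * Real.log B + C ∨
              ∃ b ∈ F, ∑ j, b j * c j * (V (p j) : ℤ) = 0) := by
        by_cases hk : 2 ≤ k
        · obtain ⟨C, F, h1, h2, h3⟩ := hκ k hk δ hδ hδ1
          exact ⟨C, F, h1, h2, fun _ => h3⟩
        · exact ⟨0, ∅, Set.finite_empty, by simp, fun h => absurd h hk⟩
      obtain ⟨b₀, hb₀, hb₀F⟩ := exists_bound hF
      have hlb₀ : 0 ≤ Real.log b₀ := Real.log_nonneg hb₀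
      have hNκ : (0 : ℝ) ≤ (N + κ : ℝ) * Real.log b₀ := by positivity
      refine ⟨h' + |C| + (N + κ : ℝ) * Real.log b₀, by positivity, ?_⟩
      intro p c B hcard hB hc hcB hsum
      have hlB : 0 ≤ Real.log B := Real.log_nonneg hB
      by_cases hle : (Finset.univ.filter fun j => c j ≠ 0).card ≤ k
      · obtain ⟨I, h1, h2, h3⟩ := ih p c B hle hB hc hcB hsum
        refine ⟨I, h1, h2, h3.trans ?_⟩
        have := abs_nonneg C
        linarith
      have hcard' : (Finset.univ.filter fun j => c j ≠ 0).card = k + 1 := by omega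
      -- enumeration of the support
      set J := Finset.univ.filter fun j => c j ≠ 0 with hJ
      let e : Fin (k + 1) → Fin N := fun i => J.orderEmbOfFin hcard' i
      have he : Function.Injective e := (J.orderEmbOfFin hcard').injective
      have heJ : Finset.univ.image e = J := by
        ext x
        rw [Finset.mem_image]
        have := J.range_orderEmbOfFin hcard'
        constructor
        · rintro ⟨i, _, rfl⟩
          exact J.orderEmbOfFin_mem hcard' i
        · intro hx
          have hx' : x ∈ Set.range (J.orderEmbOfFin hcard') := by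
            rw [this]
            exact hx
          obtain ⟨i, hi⟩ := hx'
          exact ⟨i, Finset.mem_univ _, hi⟩
      have hce : ∀ i, c (e i) ≠ 0 := by
        intro i
        have : e i ∈ J := by
          rw [← heJ]
          exact Finset.mem_image_of_mem _ (Finset.mem_univ _)
        rw [hJ] at this
        simpa using this
      have hrange : ∀ j, j ∉ Set.range e → c j = 0 := by
        intro j hj
        by_contra hcj
        apply hj
        have : j ∈ J := by
          rw [hJ]
          simpa using hcj
        rw [← heJ, Finset.mem_image] at this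
        obtain ⟨i, _, hi⟩ := this
        exact ⟨i, hi⟩
      have hsum' : ∑ i, c (e i) * (V (p (e i)) : ℤ) = 0 := by
        rw [← hsum]
        refine Fintype.sum_of_injective e he _ _ ?_ ?_
        · intro j hj
          rw [hrange j hj, zero_mul]
        · intro i
          rfl
      by_cases hk2 : 2 ≤ k
      · rcases hV hk2 (fun i => p (e i)) (fun i => c (e i)) B hce (fun i => hcB _) hsum' with h | h
        · refine ⟨J, by omega, fun j hj => ?_, ?_⟩
          · rw [hJ] at hj
            simpa using hj
          · rw [hcard', ← heJ, hgt_image]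
            push_cast
            refine h.trans ?_
            have := le_abs_self C
            linarith
        · obtain ⟨b, hbF, hb⟩ := h
          obtain ⟨hb0, j₀, hj₀⟩ := hFb b hbF
          let d : Fin N → ℤ := Function.extend e (fun i => b i * c (e i)) 0
          have hde : ∀ i, d (e i) = b i * c (e i) := fun i => he.extend_apply _ _ i
          have hdr : ∀ j, j ∉ Set.range e → d j = 0 := fun j hj =>
            Function.extend_apply' _ _ _ (fun ⟨i, hi⟩ => hj ⟨i, hi⟩)
          have hd0 : d ≠ 0 := by
            obtain ⟨i, hi⟩ := Function.ne_iff.1 hb0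
            intro h0
            have := congrFun h0 (e i)
            rw [hde] at this
            exact (mul_ne_zero hi (hce i)) this
          have hdc : ∀ j, d j ≠ 0 → c j ≠ 0 := by
            intro j hj hcj
            by_cases hr : j ∈ Set.range e
            · obtain ⟨i, rfl⟩ := hr
              exact hce i hcj
            · exact hj (hdr j hr)
          have hdB : ∀ j, |(d j : ℝ)| ≤ b₀ * B := by
            intro j
            by_cases hr : j ∈ Set.range e
            · obtain ⟨i, rfl⟩ := hr
              rw [hde, Int.cast_mul, abs_mul]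
              exact mul_le_mul (hb₀F b hbF i) (hcB _) (abs_nonneg _) (by linarith)
            · rw [hdr j hr, Int.cast_zero, abs_zero]
              positivity
          have hds : ∑ j, d j * (V (p j) : ℤ) = 0 := by
            rw [← hb]
            symm
            refine Fintype.sum_of_injective e he _ _ ?_ ?_
            · intro j hj
              rw [hdr j hj, zero_mul]
            · intro i
              rw [hde]
          have hdcard : (Finset.univ.filter fun j => d j ≠ 0).card ≤ k := by
            have hsub : (Finset.univ.filter fun j => d j ≠ 0) ⊆ J.erase (e j₀) := by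
              intro j hj
              rw [Finset.mem_filter] at hj
              rw [Finset.mem_erase]
              refine ⟨?_, ?_⟩
              · rintro rfl
                apply hj.2
                rw [hde, hj₀, zero_mul]
              · rw [hJ, Finset.mem_filter]
                exact ⟨Finset.mem_univ _, hdc j hj.2⟩
            have h1 := Finset.card_le_card hsub
            rw [Finset.card_erase_of_mem, hcard'] at h1
            · omega
            · rw [← heJ]
              exact Finset.mem_image_of_mem _ (Finset.mem_univ _)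
          obtain ⟨I, h1, h2, h3⟩ := ih p d (b₀ * B) hdcard
            (by nlinarith) hd0 hdB hds
          refine ⟨I, h1, fun j hj => hdc j (h2 j hj), h3.trans ?_⟩
          rw [Real.log_mul (by linarith) (by linarith)]
          have hIN : (I.card : ℝ) ≤ N := by
            have := Finset.card_le_univ I
            rw [Fintype.card_fin] at this
            exact_mod_cast this
          have h5 : (I.card + κ : ℝ) * Real.log b₀ ≤ (N + κ : ℝ) * Real.log b₀ :=
            mul_le_mul_of_nonneg_right (by linarith) hlb₀
          have := abs_nonneg C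
          nlinarith
      · -- the support has one or two elements
        have hk01 : k = 0 ∨ k = 1 := by omega
        rcases hk01 with rfl | rfl
        · exfalso
          rw [Fin.sum_univ_one] at hsum'
          rcases mul_eq_zero.1 hsum' with h | h
          · exact hce 0 h
          · have := V_pos (p (e 0))
            have h' : V (p (e 0)) = 0 := by exact_mod_cast h
            omega
        · rw [Fin.sum_univ_two] at hsum'
          refine ⟨{e 0, e 1}, ?_, ?_, ?_⟩
          · rw [Finset.card_pair]
            exact fun h => absurd (he h) (by decide)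
          · intro j hj
            rw [Finset.mem_insert, Finset.mem_singleton] at hj
            rcases hj with rfl | rfl
            · exact hce 0
            · exact hce 1
          · have h1 := hgt_pair (i := e 0) (j := e 1) (fun j => V (p j)) (fun j => V_pos _)
              (c (e 0)) (c (e 1)) (hce 0) (hce 1) hsum' B (hcB _) (hcB _)
            have hcd : ({e 0, e 1} : Finset (Fin N)).card = 2 := by
              rw [Finset.card_pair]
              exact fun h => absurd (he h) (by decide)
            rw [hcd]
            push_cast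
            have h2 : (1 - δ) * hgt {e 0, e 1} (fun j => V (p j)) ≤ Real.log B := by
              by_cases h0 : 0 ≤ hgt {e 0, e 1} (fun j => V (p j))
              · nlinarith
              · push Not at h0
                nlinarith
            have h3 : (0 : ℝ) ≤ κ * Real.log B := by positivity
            have := abs_nonneg C
            nlinarith
  obtain ⟨h₀, hh₀, hk⟩ := key N
  refine ⟨h₀, hh₀, ?_⟩
  intro p c B hB hc hcB hsum
  refine hk p c B ?_ hB hc hcB hsum
  exact (Finset.card_le_univ _).trans (by rw [Fintype.card_fin])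

end Pool.Agent.Lib.MP_715eb0_an.NC
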