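import Pool.Agent.Lib.MP_715eb0_an.NC.PIG
import Pool.Agent.Lib.MP_715eb0_an.NC.RDU
import Pool.Agent.Lib.MP_715eb0_an.NC.BUD
import Pool.Agent.Lib.MP_715eb0_an.NC.VAA
import Pool.Agent.Lib.MP_715eb0_an.NC.VAN
import Pool.Agent.Lib.MP_715eb0_an.NC.EXT
import Pool.Agent.Lib.MP_715eb0_an.NC.CNT
import Pool.Agent.Lib.MP_715eb0_an.NC.ARC
import Pool.Agent.Lib.MP_715eb0_an.NC.MEA
import Pool.Agent.Lib.MP_d0e829_nt.SS.MainSUB

/-!
# MP_715eb0_an: no concentration at polynomial scales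
-/

namespace Pool.Agent.Lib.MP_715eb0_an.NC

/-- Finitely supported ergodic `×2, ×3`-invariant measures do not concentrate at polynomial scales. -/
theorem main : SpecMEA :=
  specMEA (specARC (specCNT (specEXT (specVAN (specVAA Pool.Agent.Lib.MP_d0e829_nt.SS.sub))
    (specBUD specPIG specRDU))))

end Pool.Agent.Lib.MP_715eb0_an.NC
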