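import Pool.Agent.Lib.MP_715eb0_an.NC.Spec

/-!
# MP_715eb0_an, module PIG: small integral vectors orthogonal to one or two vectors
-/

set_option autoImplicit false

open Finset

namespace Pool.Agent.Lib.MP_715eb0_an.NC

namespace PIGM

/-- the pigeonhole principle for the vectors with entries from `0` to `B` -/
theorem pig {ι α : Type} [Fintype ι] (B : ℕ) (f : (ι → ℤ) → α) (T : Finset α)
    (hf : ∀ c : ι → ℤ, (∀ i, 0 ≤ c i ∧ c i ≤ B) → f c ∈ T)
    (hT : T.card < (B + 1) ^ Fintype.card ι) :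
    ∃ c c' : ι → ℤ, c ≠ c' ∧ (∀ i, 0 ≤ c i ∧ c i ≤ B) ∧ (∀ i, 0 ≤ c' i ∧ c' i ≤ B) ∧
      f c = f c' := by
  classical
  obtain ⟨S, hS⟩ : ∃ S : Finset (ι → ℤ), S = Fintype.piFinset (fun _ => Finset.Icc (0 : ℤ) B) :=
    ⟨_, rfl⟩
  have hmem : ∀ c : ι → ℤ, c ∈ S ↔ ∀ i, 0 ≤ c i ∧ c i ≤ B := by
    intro c
    rw [hS, Fintype.mem_piFinset]
    simp only [Finset.mem_Icc]
  have hcard : S.card = (B + 1) ^ Fintype.card ι := by
    rw [hS, Fintype.card_piFinset, Finset.prod_const, Finset.card_univ, Int.card_Icc]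
    congr 1
  obtain ⟨c, hc, c', hc', hne, heq⟩ := Finset.exists_ne_map_eq_of_card_lt_of_maps_to
    (s := S) (t := T) (by rw [hcard]; exact hT) (f := f)
    (fun c hc => Finset.mem_coe.mpr (hf c ((hmem c).mp (Finset.mem_coe.mp hc))))
  exact ⟨c, c', hne, (hmem c).mp hc, (hmem c').mp hc', heq⟩

/-- the interval of values -/
def lo {ι : Type} [Fintype ι] (B : ℕ) (u : ι → ℤ) : ℤ := ∑ i, (B : ℤ) * min (u i) 0

/-- the interval of values -/
def hi {ι : Type} [Fintype ι] (B : ℕ) (u : ι → ℤ) : ℤ := ∑ i, (B : ℤ) * max (u i) 0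

theorem mem_Icc {ι : Type} [Fintype ι] (B : ℕ) (u c : ι → ℤ) (hc : ∀ i, 0 ≤ c i ∧ c i ≤ B) :
    ∑ i, c i * u i ∈ Finset.Icc (lo B u) (hi B u) := by
  rw [Finset.mem_Icc]
  constructor
  · refine Finset.sum_le_sum fun i _ => ?_
    have h1 : c i * min (u i) 0 ≤ c i * u i := mul_le_mul_of_nonneg_left (min_le_left _ _) (hc i).1
    have h2 : (B : ℤ) * min (u i) 0 ≤ c i * min (u i) 0 :=
      mul_le_mul_of_nonpos_right (hc i).2 (min_le_right _ _)
    exact h2.trans h1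
  · refine Finset.sum_le_sum fun i _ => ?_
    have h1 : c i * u i ≤ c i * max (u i) 0 := mul_le_mul_of_nonneg_left (le_max_left _ _) (hc i).1
    have h2 : c i * max (u i) 0 ≤ (B : ℤ) * max (u i) 0 :=
      mul_le_mul_of_nonneg_right (hc i).2 (le_max_right _ _)
    exact h1.trans h2

theorem hi_sub_lo {ι : Type} [Fintype ι] (B : ℕ) (u : ι → ℤ) :
    hi B u - lo B u = B * l1 u := by
  unfold hi lo l1
  rw [← Finset.sum_sub_distrib, Finset.mul_sum]
  refine Finset.sum_congr rfl fun i _ => ?_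
  rcases le_total (u i) 0 with h | h
  · rw [max_eq_right h, min_eq_left h, abs_of_nonpos h]
    ring
  · rw [max_eq_left h, min_eq_right h, abs_of_nonneg h]
    ring

theorem l1_pos {ι : Type} [Fintype ι] {u : ι → ℤ} (hu : u ≠ 0) : 1 ≤ l1 u := by
  by_contra hcon
  apply hu
  funext i
  have h0 : ∀ j ∈ (Finset.univ : Finset ι), 0 ≤ |u j| := fun j _ => abs_nonneg _
  have h1 : |u i| ≤ l1 u := Finset.single_le_sum h0 (Finset.mem_univ i)
  have h2 : 0 ≤ |u i| := abs_nonneg _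
  have h3 : |u i| = 0 := by omega
  exact abs_eq_zero.mp h3

theorem card_le {ι : Type} [Fintype ι] {B : ℕ} (hB : 1 ≤ B) {u : ι → ℤ} (hu : u ≠ 0) :
    ((Finset.Icc (lo B u) (hi B u)).card : ℤ) ≤ 2 * (B * l1 u) := by
  have h1 := l1_pos hu
  have hB' : (1 : ℤ) ≤ B := by exact_mod_cast hB
  have h2 : 1 ≤ (B : ℤ) * l1 u := by nlinarith
  have h3 := hi_sub_lo B u
  rw [Int.card_Icc, Int.toNat_of_nonneg (by linarith)]
  linarith

theorem sub_spec {ι : Type} [Fintype ι] {B : ℕ} {c c' : ι → ℤ} (hne : c ≠ c')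
    (hc : ∀ i, 0 ≤ c i ∧ c i ≤ B) (hc' : ∀ i, 0 ≤ c' i ∧ c' i ≤ B) :
    c - c' ≠ 0 ∧ ∀ i, |(c - c') i| ≤ B := by
  refine ⟨sub_ne_zero.mpr hne, fun i => ?_⟩
  rw [Pi.sub_apply, abs_le]
  have h1 := hc i
  have h2 := hc' i
  constructor <;> linarith [h1.1, h1.2, h2.1, h2.2]

theorem sum_sub {ι : Type} [Fintype ι] {u c c' : ι → ℤ}
    (h : ∑ i, c i * u i = ∑ i, c' i * u i) : ∑ i, (c - c') i * u i = 0 := by
  simp only [Pi.sub_apply, sub_mul, Finset.sum_sub_distrib]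
  rw [h, sub_self]

theorem pow_lt {m B : ℕ} (hm : 1 ≤ m) : B ^ m < (B + 1) ^ m :=
  Nat.pow_lt_pow_left (Nat.lt_succ_self B) (by omega)

end PIGM

theorem specPIG : SpecPIG := by
  intro ι _ B hB
  have hB' : (1 : ℤ) ≤ B := by exact_mod_cast hB
  refine ⟨?_, ?_⟩
  · intro u u' hu hu' hm hle
    obtain ⟨k, hk⟩ : ∃ k, Fintype.card ι = k + 2 := ⟨Fintype.card ι - 2, by omega⟩
    have hk2 : Fintype.card ι - 2 = k := by omega
    rw [hk2] at hle
    obtain ⟨c, c', hne, hc, hc', heq⟩ := PIGM.pig B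
      (fun c : ι → ℤ => (∑ i, c i * u i, ∑ i, c i * u' i))
      (Finset.Icc (PIGM.lo B u) (PIGM.hi B u) ×ˢ Finset.Icc (PIGM.lo B u') (PIGM.hi B u'))
      (fun c hc => Finset.mem_product.mpr ⟨PIGM.mem_Icc B u c hc, PIGM.mem_Icc B u' c hc⟩) (by
        rw [hk]
        refine lt_of_le_of_lt ?_ (PIGM.pow_lt (m := k + 2) (B := B) (by omega))
        rw [Finset.card_product]
        have h1 := PIGM.card_le hB hu
        have h2 := PIGM.card_le hB hu'
        have h3 : (((Finset.Icc (PIGM.lo B u) (PIGM.hi B u)).card *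
            (Finset.Icc (PIGM.lo B u') (PIGM.hi B u')).card : ℕ) : ℤ) ≤ ((B ^ (k + 2) : ℕ) : ℤ) := by
          push_cast
          have h4 : ((Finset.Icc (PIGM.lo B u) (PIGM.hi B u)).card : ℤ) *
              ((Finset.Icc (PIGM.lo B u') (PIGM.hi B u')).card : ℤ) ≤
              (2 * (B * l1 u)) * (2 * (B * l1 u')) := by
            have h6 := PIGM.l1_pos hu
            have h7 : 0 ≤ (B : ℤ) * l1 u := mul_nonneg (by linarith) (by linarith)
            exact mul_le_mul h1 h2 (Int.natCast_nonneg _) (by linarith)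
          refine h4.trans ?_
          have h5 : (2 * ((B : ℤ) * l1 u)) * (2 * (B * l1 u')) =
              (B : ℤ) ^ 2 * (4 * (l1 u * l1 u')) := by ring
          rw [h5, pow_add, mul_comm ((B : ℤ) ^ k)]
          exact mul_le_mul_of_nonneg_left hle (by positivity)
        exact_mod_cast h3)
    have h1 : ∑ i, c i * u i = ∑ i, c' i * u i := congrArg Prod.fst heq
    have h2 : ∑ i, c i * u' i = ∑ i, c' i * u' i := congrArg Prod.snd heq
    obtain ⟨h3, h4⟩ := PIGM.sub_spec hne hc hc'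
    exact ⟨c - c', h3, h4, PIGM.sum_sub h1, PIGM.sum_sub h2⟩
  · intro u hu hm hle
    obtain ⟨k, hk⟩ : ∃ k, Fintype.card ι = k + 1 := ⟨Fintype.card ι - 1, by omega⟩
    have hk2 : Fintype.card ι - 1 = k := by omega
    rw [hk2] at hle
    obtain ⟨c, c', hne, hc, hc', heq⟩ := PIGM.pig B
      (fun c : ι → ℤ => ∑ i, c i * u i) (Finset.Icc (PIGM.lo B u) (PIGM.hi B u))
      (fun c hc => PIGM.mem_Icc B u c hc) (by
        rw [hk]
        refine lt_of_le_of_lt ?_ (PIGM.pow_lt (m := k + 1) (B := B) (by omega))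
        have h1 := PIGM.card_le hB hu
        have h3 : ((Finset.Icc (PIGM.lo B u) (PIGM.hi B u)).card : ℤ) ≤ ((B ^ (k + 1) : ℕ) : ℤ) := by
          refine h1.trans ?_
          push_cast
          have h5 : 2 * ((B : ℤ) * l1 u) = B * (2 * l1 u) := by ring
          rw [h5, pow_succ, mul_comm ((B : ℤ) ^ k)]
          exact mul_le_mul_of_nonneg_left hle (by positivity)
        exact_mod_cast h3)
    obtain ⟨h3, h4⟩ := PIGM.sub_spec hne hc hc'
    exact ⟨c - c', h3, h4, PIGM.sum_sub heq⟩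

end Pool.Agent.Lib.MP_715eb0_an.NC
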