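import Pool.Agent.Lib.MP_d0e829_nt.SS.SpecA
import Pool.Agent.Lib.MP_715eb0_an.AlmostAll

/-!
# MP_715eb0_an: no concentration at polynomial scales (specifications of the modules)

THEOREM. For all `ε, η > 0` there is `N₀` such that for every ergodic finitely supported
`x2, x3`-invariant probability measure `μ` on `ℝ/ℤ` with at least `N₀` atoms, `q` the order of its
atoms, every arc of radius `q^(-η)` has measure at most `ε` (uniformly in `μ` and in the centre).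

The proof: the Subspace theorem (Lean: `MP_d0e829_nt/SS`, `SpecSUB`) shows that relations
`Σ c_j v_j = 0` between numbers `v_j = 2^i 3^j` with small integral coefficients contain a subset
of small height (VAN); a pigeonhole argument in a lattice of rank two (BUD) produces such a relation
among the `v` with `v a / q` near a point `y`; an extremal choice of a subset (EXT) gives a
contradiction if there are more than `κ K / η` separated such `v` in a window of size `K log q`.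

All modules are independent: file `Pool/Agent/Lib/MP_715eb0_an/NC/XXX.lean`, import
`Pool.Agent.Lib.MP_715eb0_an.NC.Spec`, namespace `Pool.Agent.Lib.MP_715eb0_an.NC`, theorem
`specXXX (hYYY : SpecYYY) .. : SpecXXX` with the hypotheses in the order of USES, own lemmas in a
namespace `XXXM`.
-/

set_option autoImplicit false

open Pool.Agent.Lib.MP_d0e829_nt

namespace Pool.Agent.Lib.MP_715eb0_an.NC

/-- `2^i 3^j`. -/
def V (p : ℕ × ℕ) : ℕ := 2 ^ p.1 * 3 ^ p.2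

/-- The logarithmic height `log (max v_j / gcd v_j)` of a finite family of positive integers. -/
noncomputable def hgt {ι : Type} (J : Finset ι) (v : ι → ℕ) : ℝ :=
  Real.log ((J.sup v : ℕ) : ℝ) - Real.log ((J.gcd v : ℕ) : ℝ)

/-- The sum of the absolute values of the coordinates. -/
def l1 {ι : Type} [Fintype ι] (u : ι → ℤ) : ℤ := ∑ i, |u i|

/-- The Gram determinant `|x|² |y|² - (x · y)²`. -/
def gram {ι : Type} [Fintype ι] (x y : ι → ℤ) : ℤ :=
  (∑ i, x i ^ 2) * (∑ i, y i ^ 2) - (∑ i, x i * y i) ^ 2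

/-! ## Relations with small coefficients between numbers `2^i 3^j` -/

/-- VAA (250 lines). USES `SS.SpecSUB` (the Subspace theorem over number fields). One application
of the Subspace theorem. The hypothesis is `hSUB : SS.SpecSUB`.
PROOF. `K = ℚ`, `|a|_w = absV w a`. For the (unique) infinite place `|a|_∞ = |a|`; for integers `a`
and finite `w`, `|a|_w ≤ 1`. Let `S` be the set of the infinite place and of the finite places `w`
with `|6|_w ≠ 1` (finite: `support_log_absV_finite`), `t = |S|`, `κ = t + 1`. Let `v_j = V (p j)`,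
`Y_j = c_j v_j` (`j` in `Fin (n+1)`), `ΣY_j = 0`, `X_i = Y_i` for `i < n` (`Fin.castSucc`),
`nrm w X = max |X_i|_w`. For a function `g : S → Fin (n+1)` let `L_w` (`w` in `S`) be the identity
matrix `n x n` if `g w` is the last index, otherwise the identity matrix with the row number `g w`
replaced by `(1, .., 1)`; `det L_w = 1`. `SUB` with `N = n` gives `C_g` and a finite set `H_g` of
proper subspaces; there are finitely many `g`. `C` is the maximum of the `C_g` and `0`; for each `T`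
in the union of the `H_g` choose a nonzero `b` in `ℤ^n` with `Σ b_i X_i = 0` for all `X` in `T`,
and put `b_n = 0`; `F` is the set of these `b`.
Let `p, c, B` be given and `X` not in any `T`. For `w` in `S` let `g w` be an index with
`|Y_{g w}|_w` maximal. The row `g w` of `L_w` has at `X` the value `Σ X_i = - Y_n`, so
`Σ_i log |(L_w X)_i|_w = Σ_{j ≤ n} log |Y_j|_w - log (nrm w Y)` (also if `g w = n`).
Hence the left hand side of SUB is
`Σ_{w ∈ S} (n log (nrm w X) + log (nrm w Y) - Σ_j log |Y_j|_w)`.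
(1) `Σ_{w ∈ S} log (nrm w X) ≥ ht X` (for `w ∉ S` the term `log (nrm w X)` is `≤ 0`).
(2) `Σ_{w ∈ S} log |Y_j|_w = Σ_{w ∈ S} log |c_j|_w + Σ_{w ∈ S} log |v_j|_w`; the last sum is `0`
(`product_formula`, `|v_j|_w = 1` for `w ∉ S`: `v_j` divides a power of `6`), the first is
`≤ log |c_j| ≤ log B`.
(3) `Σ_{w ∈ S} log (nrm w Y) ≥ hgt v - t log B`: at the infinite place `nrm Y ≥ max v_j`; at a
finite `w` in `S` let `|v_j|_w = nrm w v`; `nrm w Y ≥ |c_j|_w |v_j|_w` and `|c_j|_w ≥ 1 / |c_j| ≥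
1 / B` (product formula, all other finite `|c_j|_w' ≤ 1`). And `Σ_{w ∈ S} log (nrm w v) = ht v`
(`nrm w v = 1` for `w ∉ S`) `= ht (v / gcd) = log (max / gcd) = hgt v`, because `nrm w (v / gcd) = 1`
for finite `w`: by Bezout `1 = Σ a_j v'_j`, so `1 ≤ max |v'_j|_w`.
(4) `ht X ≤ Σ_{w ∈ S} log (nrm w X) ≤ Σ_{w ∈ S} log (nrm w Y) ≤ log B + hgt v`.
SUB with `ε`: `n ht X + hgt v - t log B - (n+1) log B ≤ (n + ε) ht X + C`, so
`hgt v ≤ (n + 1 + t) log B + ε ht X + C ≤ (n + 1 + t + ε) log B + ε hgt v + C`. -/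
def SpecVAA : Prop :=
  ∃ κ : ℕ, ∀ n : ℕ, 2 ≤ n → ∀ ε : ℝ, 0 < ε → ε < 1 →
    ∃ (C : ℝ) (F : Set (Fin (n + 1) → ℤ)), F.Finite ∧ (∀ b ∈ F, b ≠ 0 ∧ ∃ j, b j = 0) ∧
      ∀ (p : Fin (n + 1) → ℕ × ℕ) (c : Fin (n + 1) → ℤ) (B : ℝ), (∀ j, c j ≠ 0) →
        (∀ j, |(c j : ℝ)| ≤ B) → ∑ j, c j * (V (p j) : ℤ) = 0 →
        (1 - ε) * hgt Finset.univ (fun j => V (p j)) ≤ (n + 1 + κ : ℝ) * Real.log B + C ∨
          ∃ b ∈ F, ∑ j, b j * c j * (V (p j) : ℤ) = 0

/-- VAN (160 lines). USES VAA. Relations with small coefficients contain a subset of small height.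
PROOF. Let `κ` be that of VAA (VAA for all `n`). For fixed `N` we prove by strong induction on `k`:
for all `δ` there is `h₀` which works for all `c` with exactly `k` nonzero coefficients (then take
the maximum over `k ≤ N`). `k = 0` is excluded, `k = 1` is impossible (`c_j v_j ≠ 0`). `k = 2`:
`c_i v_i = - c_j v_j`, `v_i / v_j = |c_j| / |c_i|`, so `max / gcd` of `(v_i, v_j)` is that of
`(|c_i|, |c_j|)` and `≤ B`: `I = {i, j}`. `k ≥ 3`: let `J` be the support, identify it with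
`Fin (k)`, `k = n + 1`, and apply VAA with `ε = δ`: either the inequality holds with `I = J`, or
there is `b` in `F` with `Σ b_j c_j v_j = 0`; then `c'_j = b_j c_j` (`0` outside `J`) is not `0`, has
fewer nonzero coefficients (some `b_j = 0`), and `|c'_j| ≤ b₀ B` where `b₀ ≥ 1` bounds the entries
of all `b` in `F`. By induction there is `I` with
`(1 - δ) hgt I ≤ (|I| + κ) log (b₀ B) + h' ≤ (|I| + κ) log B + (N + κ) log b₀ + h'`. -/
def SpecVAN : Prop :=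
  ∃ κ : ℕ, ∀ (N : ℕ) (δ : ℝ), 0 < δ → δ < 1 → ∃ h₀ : ℝ, 0 ≤ h₀ ∧
    ∀ (p : Fin N → ℕ × ℕ) (c : Fin N → ℤ) (B : ℝ), 1 ≤ B → c ≠ 0 → (∀ j, |(c j : ℝ)| ≤ B) →
      ∑ j, c j * (V (p j) : ℤ) = 0 →
      ∃ I : Finset (Fin N), 2 ≤ I.card ∧ (∀ j ∈ I, c j ≠ 0) ∧
        (1 - δ) * hgt I (fun j => V (p j)) ≤ (I.card + κ : ℝ) * Real.log B + h₀

/-! ## The pigeonhole argument -/

/-- PIG (130 lines). USES nothing. Small integral vectors orthogonal to one or two vectors.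
PROOF. `m = card ι`. Consider the `(B+1)^m` vectors `c` with `0 ≤ c_i ≤ B`. `c · u` takes its values
in an interval of integers of length `B l1 u` (between `- B Σ u_i⁻` and `B Σ u_i⁺`), so at most
`B l1 u + 1 ≤ 2 B l1 u` values (`l1 u ≥ 1` as `u ≠ 0`, `B ≥ 1`). Two vectors: at most
`4 B² (l1 u)(l1 u') ≤ B^m < (B+1)^m` pairs of values, so two different `c` have the same pair; take
the difference. One vector: `2 B l1 u ≤ B^m < (B+1)^m`. -/
def SpecPIG : Prop :=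
  ∀ (ι : Type) [Fintype ι] (B : ℕ), 1 ≤ B →
    (∀ u u' : ι → ℤ, u ≠ 0 → u' ≠ 0 → 2 ≤ Fintype.card ι →
      4 * (l1 u * l1 u') ≤ (B : ℤ) ^ (Fintype.card ι - 2) →
      ∃ c : ι → ℤ, c ≠ 0 ∧ (∀ i, |c i| ≤ B) ∧ ∑ i, c i * u i = 0 ∧ ∑ i, c i * u' i = 0) ∧
    (∀ u : ι → ℤ, u ≠ 0 → 1 ≤ Fintype.card ι →
      2 * l1 u ≤ (B : ℤ) ^ (Fintype.card ι - 1) →
      ∃ c : ι → ℤ, c ≠ 0 ∧ (∀ i, |c i| ≤ B) ∧ ∑ i, c i * u i = 0)

/-- RDU (120 lines). USES nothing. Gauss reduction of a lattice of rank two.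
PROOF. Among all pairs `u = α x + β y`, `u' = γ x + δ y` with `α δ - β γ = ±1` choose one with
`|u|² + |u'|²` minimal (a natural number) and, exchanging them, `|u|² ≤ |u'|²`. Then
`2 |u · u'| ≤ |u|²`: otherwise `u' ∓ u` is shorter (`|u' ∓ u|² = |u'|² ∓ 2 u · u' + |u|²`).
`gram u u' = gram x y` (determinant `±1`), so
`gram x y = |u|² |u'|² - (u · u')² ≥ (3/4) |u|² |u'|²`. `u, u' ≠ 0` because `gram x y ≠ 0`. `x` and
`y` are integral combinations of `u, u'`, so a vector orthogonal to `u, u'` is orthogonal to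
`x, y`. -/
def SpecRDU : Prop :=
  ∀ (ι : Type) [Fintype ι] (x y : ι → ℤ), gram x y ≠ 0 →
    ∃ u u' : ι → ℤ, u ≠ 0 ∧ u' ≠ 0 ∧
      3 * ((∑ i, u i ^ 2) * (∑ i, u' i ^ 2)) ≤ 4 * gram x y ∧
      ∀ c : ι → ℤ, ∑ i, c i * u i = 0 → ∑ i, c i * u' i = 0 →
        ∑ i, c i * x i = 0 ∧ ∑ i, c i * y i = 0

/-- BUD (280 lines). USES PIG, RDU. A relation with small coefficients between numbers `v_j` whose
multiples `v_j a` are near each other modulo `q`.
PROOF. Let `g = gcd v_j`, `v'_j = v_j / g`, `M = max v'_j = exp (hgt J v) ≥ q²`, `a' = g a` (prime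
to `q`), so `q ∣ v'_j a' - r_j`. Fix `j₀` in `J`, let `J' = J \ {j₀}`, `m = |J'| = |J| - 1 ≥ 3`,
`w_j = v'_j - v'_{j₀}`, `ρ_j = r_j - r_{j₀}`, `k_j = (a' w_j - ρ_j) / q` (integers), all indexed by
`J'`. `|w_j| ≤ M`, `|ρ_j| ≤ 2 q^(1-η)`. `gram w ρ = q² gram w k` (as `ρ = a' w - q k`) and
`gram w ρ ≤ |w|² |ρ|² ≤ 4 m² M² q^(2-2η)`, so `gram w k ≤ 4 m² M² q^(-2η)`.
CASE 1, `gram w k ≠ 0`. RDU gives `u, u'`; `l1 u ≤ √m |u|`, so
`4 l1 u l1 u' ≤ 4 m |u| |u'| ≤ 4 m (2/√3) 2 m M q^(-η) ≤ 10 n² M q^(-η) ≤ B^(m-2)`. PIG gives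
`c' ≠ 0` on `J'`, `|c'_j| ≤ B`, orthogonal to `u, u'`, hence to `w`.
CASE 2, `gram w k = 0`. `w ≠ 0` (the `v_j` are different). Let `D = gcd w_j > 0`, `w = D z`, `z`
primitive. By the equality case of Cauchy's inequality `k_i w_j = k_j w_i`, so `k = κ z` with `κ`
rational, and `κ` is an integer since `z` is primitive. `ρ = a' w - q k = (a' D - q κ) z`. If
`a' D - q κ ≠ 0` then `|z_j| ≤ |ρ_j| ≤ 2 q`. Otherwise `q ∣ a' D`, `q ∣ D`, `|z_j| ≤ M / q`. So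
`2 l1 z ≤ 2 m max (2 q, M / q) ≤ 10 n² M q^(-η) ≤ B^(m-2) ≤ B^(m-1)` (as `M ≥ q²`, `η ≤ 1`), and PIG
(one vector) gives `c' ≠ 0` orthogonal to `z`, hence to `w`.
In both cases put `c_j = c'_j` on `J'`, `c_{j₀} = - Σ c'_j`, `0` outside `J`:
`Σ c_j v'_j = Σ c'_j w_j = 0`, `|c_j| ≤ n B`. -/
def SpecBUD : Prop :=
  ∀ (n : ℕ) (J : Finset (Fin n)) (v : Fin n → ℕ) (r : Fin n → ℤ) (q : ℕ) (a : ℤ) (η : ℝ) (B : ℕ),
    4 ≤ J.card → (∀ j ∈ J, 0 < v j) → Set.InjOn v J → 2 ≤ q → IsCoprime a (q : ℤ) →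
    (∀ j ∈ J, Nat.Coprime (v j) q) → (∀ j ∈ J, (q : ℤ) ∣ (v j : ℤ) * a - r j) →
    0 < η → η ≤ 1 → (∀ i ∈ J, ∀ j ∈ J, |((r i - r j : ℤ) : ℝ)| ≤ 2 * (q : ℝ) ^ (1 - η)) →
    2 * Real.log q ≤ hgt J v → 1 ≤ B →
    10 * (n : ℝ) ^ 2 * Real.exp (hgt J v) * (q : ℝ) ^ (-η) ≤ (B : ℝ) ^ (J.card - 3) →
    ∃ c : Fin n → ℤ, c ≠ 0 ∧ (∀ j ∉ J, c j = 0) ∧ (∀ j, |c j| ≤ n * B) ∧ ∑ j, c j * (v j : ℤ) = 0

/-! ## The extremal argument and the count -/

/-- EXT (250 lines). USES VAN, BUD. Few separated points in a window.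
PROOF. `κ` from VAN, `κ' = 21 (κ + 3)`. Let `K, η` be given and `n` the least integer
`≥ 20 K (κ + 3) / η` (`n ≤ κ' K / η`); it is enough to show that for large `q` there are no `n`
such points (if there were more than `κ' K / η` points, take `n` of them). Let `δ = η / (20 K)`,
`h₀` from VAN for `N = n`, `δ`. Write `h_J = hgt J (V ∘ p)`; for `J ⊆ J'`, `h_J ≤ h_J'` (the maximum
grows and the gcd becomes smaller), so `2 log q ≤ h_J ≤ 5 K log q` for `|J| ≥ 2` (take a pair in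
`J`). Choose `J`, `|J| ≥ 2`, with `θ = (|J| + κ) / h_J` maximal. `θ ≥ n / (5 K log q)` (the whole
set), so `|J| + κ = θ h_J ≥ 2 n / (5 K) ≥ 8 (κ + 3)`, `|J| ≥ 4`. The `V (p j)` are different (pairs
have positive height) and prime to `q`. Let `B` be the least natural number with
`B^(|J|-3) ≥ 10 n² e^{h_J} q^(-η)`, that is `B = ⌈(10 n² e^{h_J} q^(-η))^(1/(|J|-3))⌉`; the base is
`≥ 1`, so `log B ≤ log 2 + (log (10 n²) + h_J - η log q) / (|J| - 3)`. BUD gives `c`, and VAN with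
`n B` gives `I`, `|I| ≥ 2`, with `(1 - δ) h_I ≤ (|I| + κ) log (n B) + h₀`. As
`h_I ≥ (|I| + κ) / θ` by the choice of `J`, and `1/θ = h_J / (|J| + κ)`,
`(1 - δ) h_J / (|J| + κ) ≤ log (n B) + h₀ ≤ (h_J - η log q) / (|J| - 3) + C₁`,
`C₁ = log 2 + log (10 n²) + log n + h₀`. Multiply by `|J| - 3`, using
`(|J| - 3) / (|J| + κ) = 1 - (κ + 3) / (|J| + κ)`:
`η log q ≤ δ h_J + (κ + 3) / θ + n C₁ ≤ (η/4) log q + 5 K (κ + 3) log q / n + n C₁ ≤
(η/2) log q + n C₁`, false for large `q`. -/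
def SpecEXT : Prop :=
  ∃ κ' : ℕ, ∀ (K : ℕ) (η : ℝ), 1 ≤ K → 0 < η → η ≤ 1 → ∃ q₀ : ℕ, ∀ q : ℕ, q₀ ≤ q →
    Nat.Coprime q 6 → ∀ a : ℤ, IsCoprime a (q : ℤ) → ∀ (n : ℕ) (p : Fin n → ℕ × ℕ) (r : Fin n → ℤ),
      (∀ j, Real.log (V (p j)) ≤ 5 * K * Real.log q) →
      (∀ j, (q : ℤ) ∣ (V (p j) : ℤ) * a - r j) →
      (∀ i j, |((r i - r j : ℤ) : ℝ)| ≤ 2 * (q : ℝ) ^ (1 - η)) →
      (∀ i j, i ≠ j → 2 * Real.log q ≤ hgt {i, j} (fun j => V (p j))) →
      (n : ℝ) ≤ κ' * K / η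

/-- CNT (200 lines). USES EXT. The proportion of the times near a point.
PROOF. `L = Nat.log 2 q + 1`, so `q < 2^L`, `log q < L log 2`, and `L ≤ 2 log q + 1`. Choose
`K ≥ 16 κ' / (ε η)`, `K ≥ 1` (for `η > 1` replace `η` by `1`, the set becomes larger). Let `P` be the
set of the statement (pairs `(i, j)`, `i, j < K L`). For `p` in `P` let `k_p` be the integer and
`r_p = V(p) a - q k_p`, in `[q (y - q^(-η)), q (y + q^(-η))]`, so `|r_p - r_p'| ≤ 2 q^(1-η)`. Let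
`P'` be a maximal subset of `P` with pairwise heights `log (max / gcd) ≥ 2 log q`.
`log V(p) ≤ K L log 6 ≤ 5 K log q` for large `q` (`log 6 / log 2 < 2.6`), so `|P'| ≤ κ' K / η` by EXT
(index `P'` by `Fin |P'|`). Every `p = (i, j)` in `P` has some `p' = (i', j')` in `P'` with height of
the pair `< 2 log q` (or `p = p'`). Since
`max / gcd ≥ 2^|i-i'|` and `≥ 3^|j-j'|` (one of `V p / gcd`, `V p' / gcd` is divisible by it),
`|i - i'| < 2 L` and `|j - j'| < 2 L`: for each `p'` at most `(4 L)²` points `p`. So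
`|P| ≤ 16 L² κ' K / η ≤ ε (K L)²`. -/
def SpecCNT : Prop :=
  ∀ ε η : ℝ, 0 < ε → 0 < η → ∃ K q₀ : ℕ, 1 ≤ K ∧ ∀ q : ℕ, q₀ ≤ q → Nat.Coprime q 6 →
    ∀ a : ℤ, IsCoprime a (q : ℤ) → ∀ y : ℝ,
      ((Set.ncard {p : ℕ × ℕ | p.1 < K * (Nat.log 2 q + 1) ∧ p.2 < K * (Nat.log 2 q + 1) ∧
        ∃ k : ℤ, |(V p : ℝ) * (a / q) - y - k| ≤ (q : ℝ) ^ (-η)} : ℕ) : ℝ) ≤
        ε * (K * (Nat.log 2 q + 1)) ^ 2

/-- ARC (170 lines). USES CNT. Averaging over the orbit.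
PROOF. `q = addOrderOf x`, coprime to `6`, `W` the square of CNT, `|W| = (K L)²`. For `z` in `Orb x`
the order of `z` is `q` (`order_of_mem_Orb`), so `z` is the class of `a / q` with an integer `a`
prime to `q` (`q • z = 0`; `AddCircle.gcd_mul_addOrderOf_div_eq` or directly). `z` near `y`:
`dist (V(p) • z) y ≤ ρ` iff `|V(p) a / q - y' - k| ≤ ρ` for some integer `k`, `y'` a representative
of `y` (`AddCircle.norm_eq`, `round`). For every `(i, j)` the map `z ↦ (2^i 3^j) • z` is a bijection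
of the finite set `Orb x` (`two_Orb`: it maps `Orb x` onto itself). So
`|W| #{z ∈ Orb x : dist z y ≤ ρ} = Σ_{p ∈ W} #{z ∈ Orb x : dist (V(p) • z) y ≤ ρ} =
Σ_{z ∈ Orb x} #{p ∈ W : dist (V(p) • z) y ≤ ρ} ≤ |Orb x| ε |W|` by CNT. -/
def SpecARC : Prop :=
  ∀ ε η : ℝ, 0 < ε → 0 < η → ∃ q₀ : ℕ, ∀ x : T, (addOrderOf x).Coprime 6 → q₀ ≤ addOrderOf x →
    ∀ y : T, ((Set.ncard {z : T | z ∈ Orb x ∧ dist z y ≤ (addOrderOf x : ℝ) ^ (-η)} : ℕ) : ℝ) ≤
      ε * (Orb x).card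

/-- MEA (90 lines). USES ARC. THE THEOREM.
PROOF. `classify`: `μ = U (Orb x₀)`, the order of `x₀` coprime to `6`. The atoms are the points of
`Orb x₀` (`atoms_U`), so `x` is in `Orb x₀`, `Orb x = Orb x₀` (`Orb_eq`), and
`N₀ ≤ atoms μ = |Orb x| ≤ addOrderOf x` (`card_Orb`, `cnt q ≤ q`). `U_apply` for the closed ball:
`μ (closedBall y ρ) = #{z ∈ Orb x : dist z y ≤ ρ} / |Orb x| ≤ ε`; `N₀ = q₀` from ARC. -/
def SpecMEA : Prop :=
  ∀ ε η : ℝ, 0 < ε → 0 < η → ∃ N₀ : ℕ, ∀ μ : MeasureTheory.Measure T, Erg μ → N₀ ≤ atoms μ →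
    ∀ x : T, μ {x} ≠ 0 → ∀ y : T,
      μ (Metric.closedBall y ((addOrderOf x : ℝ) ^ (-η))) ≤ ENNReal.ofReal ε

end Pool.Agent.Lib.MP_715eb0_an.NC
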